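import Mathlib
import Pool.Agent.LCD.OrdDefs

set_option autoImplicit false

/-!
# Weil numbers with arbitrary slopes in CM fields: definitions
-/

namespace Pool.Agent.GWN

open NumberField Module
open Pool.Agent.CMT (QBar)
open Pool.Agent.FFT (TateByDivisors IsWeil)
open Pool.Agent.LCD (NoCommonPower)

/-- `q` is a power of `p` and `π` is a Weil `q`-number in the CM field `K` all of whose slopes are
multiples of `1 / N`: for every embedding of `K` into the algebraic closure of the `p`-adic numbers
there is an integer `k ≥ 0` with `‖π‖ = ‖q‖ ^ (k / N)` -/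
def HasSlopes (p : ℕ) [Fact p.Prime] (N : ℕ) {K : Type} [Field K] [NumberField K] [IsCMField K]
    (q : ℕ) (π : K) : Prop :=
  (∃ a : ℕ, 1 ≤ a ∧ q = p ^ a) ∧ IsWeil q π ∧
    ∀ ψ : K →+* PadicAlgCl p, ∃ k : ℕ, ‖ψ π‖ ^ N = ‖(q : PadicAlgCl p)‖ ^ k

/-- pairs `(q, π)`, where `q` is a power of `p` and `π` is a Weil `q`-number in `K` whose slopes are
multiples of `1 / N` -/
abbrev SlopeNumber (p : ℕ) [Fact p.Prime] (N : ℕ) (K : Type) [Field K] [NumberField K]
    [IsCMField K] : Type :=
  {x : ℕ × K // HasSlopes p N x.1 x.2}

/-- two Weil numbers are equivalent if they have a common power: over the algebraic closure of the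
field with `p` elements they belong to the same simple abelian variety up to isogeny, and the same
embedding of `K` into the centre of its endomorphism algebra -/
def samePower (p : ℕ) [Fact p.Prime] (N : ℕ) (K : Type) [Field K] [NumberField K] [IsCMField K] :
    Setoid (SlopeNumber p N K) where
  r x y := ∃ m m' : ℕ, 0 < m ∧ 0 < m' ∧ x.1.2 ^ m = y.1.2 ^ m'
  iseqv :=
    { refl := fun _ => ⟨1, 1, one_pos, one_pos, rfl⟩
      symm := fun ⟨m, m', hm, hm', h⟩ => ⟨m', m, hm', hm, h.symm⟩
      trans := fun {x y z} ⟨m, m', hm, hm', h⟩ ⟨k, k', hk, hk', h'⟩ =>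
        ⟨m * k, k' * m', Nat.mul_pos hm hk, Nat.mul_pos hk' hm', by
          rw [pow_mul, h, ← pow_mul, Nat.mul_comm m' k, pow_mul, h', ← pow_mul]⟩ }

/-- the classes of the Weil numbers in `K` whose slopes are multiples of `1 / N` -/
def SlopeClass (p : ℕ) [Fact p.Prime] (N : ℕ) (K : Type) [Field K] [NumberField K] [IsCMField K] :
    Type :=
  Quotient (samePower p N K)

/-- a tuple `t` of classes is bad: there are a power `q` of `p` and Weil `q`-numbers `π j` in the
classes `t j` such that two different eigenvalues have a common power, or not all Tate weights, of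
all codimensions on all products of powers, are divisorial -/
def BadTuple {J : Type} {K : J → Type} [∀ j, Field (K j)] [∀ j, NumberField (K j)]
    [∀ j, IsCMField (K j)] (p : ℕ) [Fact p.Prime] (N : ℕ) (t : ∀ j, SlopeClass p N (K j)) :
    Prop :=
  ∃ (q : ℕ) (π : ∀ j, K j) (h : ∀ j, HasSlopes p N q (π j)),
    (∀ j, Quotient.mk (samePower p N (K j)) ⟨(q, π j), h j⟩ = t j) ∧
      ¬ (NoCommonPower π ∧ TateByDivisors q π)

/-- the `p`-adic absolute values of `K`, that is, the places of `K` above `p` -/
abbrev Place (p : ℕ) [Fact p.Prime] (K : Type) [Field K] : Type :=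
  {v : K → ℝ // ∃ ψ : K →+* PadicAlgCl p, ∀ x, v x = ‖ψ x‖}

/-- the number of pairs of different complex conjugate places of `K` above `p`, that is, the number
of the places above `p` of the maximal totally real subfield which split in `K` -/
noncomputable def splitPairs (p : ℕ) [Fact p.Prime] (K : Type) [Field K] [NumberField K]
    [IsCMField K] : ℕ :=
  Nat.card {v : Place p K // ∃ x, v.1 (IsCMField.complexConj K x) ≠ v.1 x} / 2

end Pool.Agent.GWN
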