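import Mathlib
import Pool.Agent.GWN.Defs

set_option autoImplicit false

/-!
# Weil numbers with arbitrary slopes in CM fields: targets
-/

namespace Pool.Agent.GWN

open NumberField Module
open Pool.Agent.CMT (QBar cc)
open Pool.Agent.FFT (TateByDivisors IsWeil act conj)
open Pool.Agent.LCD (NoCommonPower)
open scoped BigOperators

/-- the place of an embedding -/
noncomputable def placeOf {p : ℕ} [Fact p.Prime] {K : Type} [Field K] (ψ : K →+* PadicAlgCl p) : Place p K :=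
  ⟨fun x => ‖ψ x‖, ψ, fun _ => rfl⟩

/-- the complex conjugate place -/
noncomputable def conjPlace {p : ℕ} [Fact p.Prime] {K : Type} [Field K] [NumberField K]
    [IsCMField K] (v : Place p K) : Place p K :=
  ⟨fun x => v.1 (IsCMField.complexConj K x), by
    obtain ⟨ψ, h⟩ := v.2
    exact ⟨ψ.comp (IsCMField.complexConj K : K →+* K), fun x => h _⟩⟩

/-- the integral odd functions orthogonal to all translates of `l` are zero -/
def Full {X T : Type} [Fintype X] (c : X → X) (a : T → X → X) (l : X → ℤ) : Prop :=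
  ∀ f : X → ℤ, (∀ x, f (c x) = - f x) → (∀ t, ∑ x, l (a t x) * f x = 0) → f = 0

/-- PL: embeddings with the same prime ideal have the same absolute value -/
def T_PL : Prop := ∀ (p : ℕ) [Fact p.Prime] (K : Type) [Field K] [NumberField K]
  (ψ ψ' : K →+* PadicAlgCl p), (∀ x : 𝓞 K, ‖ψ x‖ < 1 → ‖ψ' x‖ < 1) → ∀ x : K, ‖ψ x‖ = ‖ψ' x‖

/-- DEG: an embedding with values in the `p`-adic numbers is determined by its absolute value -/
def T_DEG : Prop := ∀ (p : ℕ) [Fact p.Prime] (K : Type) [Field K] [NumberField K]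
  (ψ ψ' : K →+* PadicAlgCl p), (∀ x : K, ∃ y : ℚ_[p], ψ x = algebraMap ℚ_[p] (PadicAlgCl p) y) →
  (∀ x : K, ‖ψ x‖ = ‖ψ' x‖) → ψ = ψ'

/-- RAT: the absolute values of algebraic numbers are rational powers of `‖p‖` -/
def T_RAT : Prop := ∀ (p : ℕ) [Fact p.Prime] (x : PadicAlgCl p), x ≠ 0 →
  ∃ (n : ℕ) (k : ℤ), 1 ≤ n ∧ ‖x‖ ^ n = ‖(p : PadicAlgCl p)‖ ^ k

/-- EX: existence of Weil numbers with given slopes -/
def T_EX : Prop := ∀ (p : ℕ) [Fact p.Prime] (K : Type) [Field K] [NumberField K] [IsCMField K]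
  (N : ℕ), 1 ≤ N → ∀ s : Place p K → ℕ, (∀ v, s v + s (conjPlace v) = N) →
  ∃ (q : ℕ) (π : K), (∃ a : ℕ, 1 ≤ a ∧ q = p ^ a) ∧ IsWeil q π ∧
    ∀ ψ : K →+* PadicAlgCl p, ‖ψ π‖ ^ N = ‖(q : PadicAlgCl p)‖ ^ s (placeOf ψ)

/-- UN: uniqueness up to powers of the Weil numbers with given slopes -/
def T_UN : Prop := ∀ (p : ℕ) [Fact p.Prime] (K : Type) [Field K] [NumberField K] [IsCMField K]
  (a a' q q' : ℕ), 1 ≤ a → 1 ≤ a' → q = p ^ a → q' = p ^ a' → ∀ π π' : K, IsWeil q π →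
  IsWeil q' π' → (∀ ψ : K →+* PadicAlgCl p, ‖ψ π‖ ^ a' = ‖ψ π'‖ ^ a) →
  ∃ m m' : ℕ, 0 < m ∧ 0 < m' ∧ π ^ m = π' ^ m'

/-- CNT: number of the functions `s` with `s (d y) = N - s y` -/
def T_CNT : Prop := ∀ (Y : Type) [Fintype Y] (d : Y → Y), (∀ y, d (d y) = y) → ∀ N : ℕ,
  (Even N ∨ ∀ y, d y ≠ y) →
  Nat.card {s : Y → ℕ // ∀ y, s y + s (d y) = N} = (N + 1) ^ (Nat.card {y : Y // d y ≠ y} / 2)

/-- SZ: if one odd function is full then almost all of them are -/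
def T_SZ : Prop := ∀ (X Y T : Type) [Fintype X] [Fintype Y] (c : X → X) (d : Y → Y) (pl : X → Y)
  (a : T → X → X), (∀ x, c (c x) = x) → (∀ x, c x ≠ x) → (∀ y, d (d y) = y) →
  (∀ x, d (pl x) = pl (c x)) → (∀ t x, c (a t x) = a t (c x)) →
  ∀ l : Y → ℤ, (∀ y, l (d y) = - l y) → Full c a (fun x => l (pl x)) →
  ∀ N : ℕ, Nat.card {s : Y → ℕ // (∀ y, s y + s (d y) = N) ∧
      ¬ Full c a (fun x => 2 * (s (pl x) : ℤ) - N)} * (N + 1) ≤
    (Fintype.card X / 2) * (N + 1) ^ (Nat.card {y : Y // d y ≠ y} / 2)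

/-- GOOD: no relations between the slopes, then all Tate weights are divisorial -/
def T_GOOD : Prop := ∀ (p : ℕ) [Fact p.Prime] (q : ℕ) (J : Type) [Fintype J] (K : J → Type)
  [∀ j, Field (K j)] [∀ j, NumberField (K j)] [∀ j, IsCMField (K j)] (π : ∀ j, K j),
  (∃ a : ℕ, 1 ≤ a ∧ q = p ^ a) → (∀ j, IsWeil q (π j)) → ∀ (ι : QBar →+* PadicAlgCl p) (N : ℕ)
    (s : (Σ j, K j →+* QBar) → ℕ), 1 ≤ N →
    (∀ x, ‖ι (x.2 (π x.1))‖ ^ N = ‖(q : PadicAlgCl p)‖ ^ s x) →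
    Full conj (fun τ => act K τ) (fun x => 2 * (s x : ℤ) - N) →
    NoCommonPower π ∧ TateByDivisors q π

/-- CONV: if no two eigenvalues have a common power and all Tate weights are divisorial, then there
are no relations between the slopes -/
def T_CONV : Prop := ∀ (p : ℕ) [Fact p.Prime] (q : ℕ) (J : Type) [Fintype J] (K : J → Type)
  [∀ j, Field (K j)] [∀ j, NumberField (K j)] [∀ j, IsCMField (K j)] (π : ∀ j, K j),
  (∃ a : ℕ, 1 ≤ a ∧ q = p ^ a) → (∀ j, IsWeil q (π j)) → ∀ (ι : QBar →+* PadicAlgCl p) (N : ℕ)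
    (s : (Σ j, K j →+* QBar) → ℕ), 1 ≤ N →
    (∀ x, ‖ι (x.2 (π x.1))‖ ^ N = ‖(q : PadicAlgCl p)‖ ^ s x) →
    NoCommonPower π → TateByDivisors q π →
    Full conj (fun τ => act K τ) (fun x => 2 * (s x : ℤ) - N)

/-- ZERO: a full odd function for independent fields which embed into the `p`-adic numbers -/
def T_ZERO : Prop := ∀ (p : ℕ) [Fact p.Prime] (J : Type) [Fintype J] (K : J → Type)
  [∀ j, Field (K j)] [∀ j, NumberField (K j)] [∀ j, IsCMField (K j)],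
  (∀ j, Nonempty (K j →+* ℚ_[p])) →
  (∀ j, ∃ σ : QBar ≃+* QBar, (∀ φ : K j →+* QBar, (σ : QBar →+* QBar).comp φ = φ) ∧
    ∀ k, k ≠ j → ∀ φ : K k →+* QBar, (σ : QBar →+* QBar).comp φ = cc φ) →
  ∀ ι : QBar →+* PadicAlgCl p, ∃ l : (Σ j, Place p (K j)) → ℤ,
    (∀ y, l ⟨y.1, conjPlace y.2⟩ = - l y) ∧
    Full conj (fun τ => act K τ) (fun x : Σ j, K j →+* QBar => l ⟨x.1, placeOf (ι.comp x.2)⟩)

/-- CLS: the classes of Weil numbers correspond to the slope functions -/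
def T_CLS : Prop := ∀ (p : ℕ) [Fact p.Prime] (K : Type) [Field K] [NumberField K] [IsCMField K]
  (N : ℕ), 1 ≤ N → ∃ F : SlopeClass p N K → {s : Place p K → ℕ // ∀ v, s v + s (conjPlace v) = N},
    Function.Bijective F ∧ ∀ (x : SlopeNumber p N K) (ψ : K →+* PadicAlgCl p),
      ‖ψ x.1.2‖ ^ N = ‖(x.1.1 : PadicAlgCl p)‖ ^ (F (Quotient.mk _ x)).1 (placeOf ψ)

/-- MAIN -/
def T_MAIN : Prop := ∀ (J : Type) [Fintype J] (K : J → Type) [∀ j, Field (K j)]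
  [∀ j, NumberField (K j)] [∀ j, IsCMField (K j)] (p : ℕ) [Fact p.Prime],
  (∀ N : ℕ, 1 ≤ N → Finite (∀ j, SlopeClass p N (K j)) ∧
    ((Even N ∨ ∀ (j : J) (v : Place p (K j)), ∃ x, v.1 (IsCMField.complexConj (K j) x) ≠ v.1 x) →
      Nat.card (∀ j, SlopeClass p N (K j)) = (N + 1) ^ (∑ j, splitPairs p (K j)))) ∧
  (((∃ (q : ℕ) (π : ∀ j, K j), (∃ a : ℕ, 1 ≤ a ∧ q = p ^ a) ∧ (∀ j, IsWeil q (π j)) ∧
      NoCommonPower π ∧ TateByDivisors q π) ∨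
    ((∀ j, Nonempty (K j →+* ℚ_[p])) ∧
      ∀ j, ∃ σ : QBar ≃+* QBar, (∀ φ : K j →+* QBar, (σ : QBar →+* QBar).comp φ = φ) ∧
        ∀ k, k ≠ j → ∀ φ : K k →+* QBar, (σ : QBar →+* QBar).comp φ = cc φ)) →
    ∀ N : ℕ, 1 ≤ N → Nat.card {t : ∀ j, SlopeClass p N (K j) // BadTuple p N t} * (N + 1) ≤
      (∑ j, finrank ℚ (K j)) / 2 * (N + 1) ^ (∑ j, splitPairs p (K j)))

end Pool.Agent.GWN
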