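import Mathlib
import Pool.Agent.GWN.Targets
import Pool.Agent.FFT.NORM

set_option autoImplicit false

/-!
# The classes of Weil numbers correspond to the slope functions
-/

namespace Pool.Agent.GWN

open NumberField Module
open Pool.Agent.FFT (IsWeil)
open Pool.Agent.FFT.NORM_ (norm_q_pos norm_q_lt)

namespace CLS_

section
variable {p : ℕ} [Fact p.Prime] {K : Type} [Field K] [NumberField K] [IsCMField K]

theorem conj_conjPlace (v : Place p K) : conjPlace (conjPlace v) = v := by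
  apply Subtype.ext
  funext x
  show v.1 (IsCMField.complexConj K (IsCMField.complexConj K x)) = v.1 x
  rw [IsCMField.complexConj_apply_apply]

theorem placeOf_comp (ψ : K →+* PadicAlgCl p) :
    conjPlace (placeOf ψ) = placeOf (ψ.comp (IsCMField.complexConj K : K →+* K)) := rfl

theorem exists_placeOf (v : Place p K) : ∃ ψ : K →+* PadicAlgCl p, placeOf ψ = v := by
  obtain ⟨v, ψ, h⟩ := v
  refine ⟨ψ, Subtype.ext ?_⟩
  funext x
  exact (h x).symm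

theorem exists_slope (N : ℕ) (q : ℕ) (π : K) (h : HasSlopes p N q π) :
    ∃ s : {s : Place p K → ℕ // ∀ v, s v + s (conjPlace v) = N},
      ∀ ψ : K →+* PadicAlgCl p, ‖ψ π‖ ^ N = ‖(q : PadicAlgCl p)‖ ^ s.1 (placeOf ψ) := by
  obtain ⟨⟨a, ha, hq⟩, hW, hs⟩ := h
  have hr0 : 0 < ‖(q : PadicAlgCl p)‖ := norm_q_pos p a q hq
  have hr1 : ‖(q : PadicAlgCl p)‖ < 1 := norm_q_lt p a q ha hq
  have h1 : ∀ v : Place p K, ∃ k : ℕ, v.1 π ^ N = ‖(q : PadicAlgCl p)‖ ^ k := by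
    intro v
    obtain ⟨ψ, hψ⟩ := v.2
    obtain ⟨k, hk⟩ := hs ψ
    exact ⟨k, by rw [hψ, hk]⟩
  choose s hs1 using h1
  refine ⟨⟨s, ?_⟩, fun ψ => hs1 (placeOf ψ)⟩
  intro v
  obtain ⟨ψ, rfl⟩ := exists_placeOf v
  apply pow_right_injective₀ hr0 hr1.ne
  show ‖(q : PadicAlgCl p)‖ ^ (s (placeOf ψ) + s (conjPlace (placeOf ψ))) =
    ‖(q : PadicAlgCl p)‖ ^ N
  rw [pow_add, ← hs1, ← hs1, ← mul_pow]
  congr 1
  show ‖ψ π‖ * ‖ψ (IsCMField.complexConj K π)‖ = _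
  rw [← norm_mul, ← map_mul, hW.2, map_natCast]

theorem slope_unique (N : ℕ) (hN : 1 ≤ N) (a a' q q' : ℕ) (ha : 1 ≤ a) (ha' : 1 ≤ a')
    (hq : q = p ^ a) (hq' : q' = p ^ a') (π π' : K) (hW : IsWeil q π) (hW' : IsWeil q' π')
    (s s' : Place p K → ℕ)
    (hs : ∀ ψ : K →+* PadicAlgCl p, ‖ψ π‖ ^ N = ‖(q : PadicAlgCl p)‖ ^ s (placeOf ψ))
    (hs' : ∀ ψ : K →+* PadicAlgCl p, ‖ψ π'‖ ^ N = ‖(q' : PadicAlgCl p)‖ ^ s' (placeOf ψ))
    (m m' : ℕ) (hm : 0 < m) (hm' : 0 < m') (h : π ^ m = π' ^ m') : s = s' := by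
  have hr0 : 0 < ‖(q : PadicAlgCl p)‖ := norm_q_pos p a q hq
  have hr1 : ‖(q : PadicAlgCl p)‖ < 1 := norm_q_lt p a q ha hq
  funext v
  obtain ⟨ψ, rfl⟩ := exists_placeOf v
  have h1 : ‖(q : PadicAlgCl p)‖ ^ m = ‖(q' : PadicAlgCl p)‖ ^ m' := by
    have e1 : ψ (π ^ m * IsCMField.complexConj K (π ^ m)) = (q : PadicAlgCl p) ^ m := by
      rw [map_pow, ← mul_pow, hW.2, map_pow, map_natCast]
    have e2 : ψ (π' ^ m' * IsCMField.complexConj K (π' ^ m')) = (q' : PadicAlgCl p) ^ m' := by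
      rw [map_pow, ← mul_pow, hW'.2, map_pow, map_natCast]
    rw [h, e2] at e1
    rw [← norm_pow, ← norm_pow, e1]
  have h2 : ‖ψ π‖ ^ m = ‖ψ π'‖ ^ m' := by
    rw [← norm_pow, ← norm_pow, ← map_pow, ← map_pow, h]
  have h3 : ‖(q : PadicAlgCl p)‖ ^ (s (placeOf ψ) * m) =
      ‖(q : PadicAlgCl p)‖ ^ (s' (placeOf ψ) * m) := by
    calc ‖(q : PadicAlgCl p)‖ ^ (s (placeOf ψ) * m) = (‖ψ π‖ ^ m) ^ N := by
          rw [pow_mul, ← hs, ← pow_mul, ← pow_mul, Nat.mul_comm]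
      _ = (‖ψ π'‖ ^ N) ^ m' := by rw [h2, ← pow_mul, ← pow_mul, Nat.mul_comm]
      _ = (‖(q' : PadicAlgCl p)‖ ^ m') ^ s' (placeOf ψ) := by
          rw [hs', ← pow_mul, ← pow_mul, Nat.mul_comm]
      _ = ‖(q : PadicAlgCl p)‖ ^ (s' (placeOf ψ) * m) := by
          rw [← h1, ← pow_mul, Nat.mul_comm]
  have h4 := pow_right_injective₀ hr0 hr1.ne h3
  exact Nat.eq_of_mul_eq_mul_right hm h4

end

end CLS_

open CLS_ in
theorem p_CLS (h1 : T_EX) (h2 : T_UN) : T_CLS := by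
  intro p _ K _ _ _ N hN
  have h0 : ∀ x : SlopeNumber p N K, ∃ s : {s : Place p K → ℕ // ∀ v, s v + s (conjPlace v) = N},
      ∀ ψ : K →+* PadicAlgCl p, ‖ψ x.1.2‖ ^ N = ‖(x.1.1 : PadicAlgCl p)‖ ^ s.1 (placeOf ψ) :=
    fun x => exists_slope N x.1.1 x.1.2 x.2
  choose sl hsl using h0
  refine ⟨Quotient.lift sl ?_, ⟨?_, ?_⟩, ?_⟩
  · intro x y hxy
    obtain ⟨m, m', hm, hm', h⟩ := hxy
    obtain ⟨a, ha, hq⟩ := x.2.1
    obtain ⟨a', ha', hq'⟩ := y.2.1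
    apply Subtype.ext
    exact slope_unique N hN a a' x.1.1 y.1.1 ha ha' hq hq' x.1.2 y.1.2 x.2.2.1 y.2.2.1 _ _
      (hsl x) (hsl y) m m' hm hm' h
  · intro c c'
    refine Quotient.inductionOn₂ c c' ?_
    intro x y h
    have h3 : sl x = sl y := h
    obtain ⟨a, ha, hq⟩ := x.2.1
    obtain ⟨a', ha', hq'⟩ := y.2.1
    refine Quotient.sound ?_
    refine h2 p K a a' x.1.1 y.1.1 ha ha' hq hq' x.1.2 y.1.2 x.2.2.1 y.2.2.1 ?_
    intro ψ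
    have e1 := hsl x ψ
    have e2 := hsl y ψ
    rw [← h3] at e2
    have e3 : (‖ψ x.1.2‖ ^ a') ^ N = (‖ψ y.1.2‖ ^ a) ^ N := by
      calc (‖ψ x.1.2‖ ^ a') ^ N = (‖ψ x.1.2‖ ^ N) ^ a' := by rw [← pow_mul, ← pow_mul, Nat.mul_comm]
        _ = (‖ψ y.1.2‖ ^ N) ^ a := by
          rw [e1, e2, hq, hq']
          push_cast
          rw [norm_pow, norm_pow, ← pow_mul, ← pow_mul, ← pow_mul, ← pow_mul]
          congr 1
          ring
        _ = (‖ψ y.1.2‖ ^ a) ^ N := by rw [← pow_mul, ← pow_mul, Nat.mul_comm]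
    exact (pow_left_inj₀ (by positivity) (by positivity) (by omega)).1 e3
  · intro s
    obtain ⟨q, π, hq, hW, h⟩ := h1 p K N hN s.1 s.2
    have hx : HasSlopes p N q π := ⟨hq, hW, fun ψ => ⟨_, h ψ⟩⟩
    refine ⟨Quotient.mk _ ⟨(q, π), hx⟩, ?_⟩
    show sl ⟨(q, π), hx⟩ = s
    obtain ⟨a, ha, hq'⟩ := hq
    apply Subtype.ext
    exact slope_unique N hN a a q q ha ha hq' hq' π π hW hW _ _ (hsl ⟨(q, π), hx⟩) h 1 1
      one_pos one_pos rfl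
  · intro x ψ
    exact hsl x ψ

end Pool.Agent.GWN
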