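import Mathlib
import Pool.Agent.GWN.Targets
import Pool.Agent.CMV.CardHalf

set_option autoImplicit false

/-!
# Full functions and determinants
-/

namespace Pool.Agent.GWN

open Finset
open Pool.Agent.CMTP (HalfX)
open scoped BigOperators

namespace LA_

/-- the sum of an even function -/
theorem sum_even {X : Type} [Fintype X] (c : X → X) (hcc : ∀ x, c (c x) = x)
    (R : Finset X) (hR : HalfX c R) (g : X → ℤ) (hg : ∀ x, g (c x) = g x) :
    ∑ x, g x = 2 * ∑ x ∈ R, g x := by
  classical
  have h1 : ∑ x ∈ Rᶜ, g x = ∑ x ∈ R, g x := by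
    refine (Finset.sum_bij (fun x _ => c x) ?_ ?_ ?_ ?_).symm
    · intro x hx
      rw [Finset.mem_compl]
      exact (hR x).1 hx
    · intro x _ y _ h
      rw [← hcc x, h, hcc]
    · intro y hy
      rw [Finset.mem_compl] at hy
      refine ⟨c y, ?_, hcc y⟩
      rw [hR, hcc]
      exact hy
    · intro x _
      exact (hg x).symm
  rw [← Finset.sum_add_sum_compl R g, h1]
  ring

/-- common denominators -/
theorem clear_den {R : Type} [Fintype R] (u : R → ℚ) :
    ∃ (D : ℤ) (z : R → ℤ), D ≠ 0 ∧ ∀ k, (z k : ℚ) = D * u k := by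
  classical
  refine ⟨∏ k, ((u k).den : ℤ), fun k => (u k).num * ∏ j ∈ univ.erase k, ((u j).den : ℤ), ?_, ?_⟩
  · rw [Finset.prod_ne_zero_iff]
    intro k _
    exact_mod_cast (u k).den_nz
  · intro k
    rw [← Finset.mul_prod_erase univ _ (mem_univ k)]
    push_cast
    have h := Rat.mul_den_eq_num (u k)
    rw [mul_comm ((u k).den : ℚ) _, mul_assoc, mul_comm ((u k).den : ℚ) (u k), h]
    ring

/-- a family of vectors without a common orthogonal vector contains a basis -/
theorem exists_det {R T : Type} [Fintype R] [DecidableEq R] (V : T → R → ℤ)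
    (h : ∀ f : R → ℤ, (∀ t, ∑ k, V t k * f k = 0) → f = 0) :
    ∃ τ : R → T, (Matrix.of fun i k => V (τ i) k).det ≠ 0 := by
  classical
  let W : T → R → ℚ := fun t k => V t k
  have hspan : Submodule.span ℚ (Set.range W) = ⊤ := by
    by_contra hne
    obtain ⟨f, hf0, hf⟩ := Submodule.exists_le_ker_of_lt_top _ (lt_top_iff_ne_top.2 hne)
    obtain ⟨D, z, hD, hz⟩ := clear_den (fun k => f (Pi.single k 1))
    have hfs : ∀ w : R → ℚ, f w = ∑ k, w k * f (Pi.single k 1) := by
      intro w
      conv_lhs => rw [← Finset.univ_sum_single w]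
      rw [map_sum]
      refine Finset.sum_congr rfl fun k _ => ?_
      have : (Pi.single k (w k) : R → ℚ) = w k • Pi.single k 1 := by
        rw [← Pi.single_smul, smul_eq_mul, mul_one]
      rw [this, map_smul, smul_eq_mul]
    have hz0 : z = 0 := by
      apply h
      intro t
      have h1 : f (W t) = 0 := hf (Submodule.subset_span ⟨t, rfl⟩)
      rw [hfs] at h1
      have h2 : ((∑ k, V t k * z k : ℤ) : ℚ) = D * ∑ k, W t k * f (Pi.single k 1) := by
        rw [Finset.mul_sum]
        push_cast
        refine Finset.sum_congr rfl fun k _ => ?_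
        rw [hz k]
        show (V t k : ℚ) * _ = D * ((V t k : ℚ) * _)
        ring
      rw [h1, mul_zero] at h2
      exact_mod_cast h2
    apply hf0
    ext k
    have h3 := hz k
    rw [hz0] at h3
    simp only [Pi.zero_apply, Int.cast_zero] at h3
    have h4 : f (Pi.single k 1) = 0 := by
      rcases mul_eq_zero.1 h3.symm with h5 | h5
      · exact absurd (by exact_mod_cast h5) hD
      · exact h5
    simpa using h4
  obtain ⟨κ, a, ha, hsp, hli⟩ := exists_linearIndependent' ℚ W
  rw [hspan] at hsp
  let b : Module.Basis κ ℚ (R → ℚ) := Module.Basis.mk hli (by rw [hsp])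
  have : Fintype κ := FiniteDimensional.fintypeBasisIndex b
  have hcard : Fintype.card κ = Fintype.card R := by
    rw [← Module.finrank_eq_card_basis b, Module.finrank_fintype_fun_eq_card]
  let e : R ≃ κ := (Fintype.equivOfCardEq hcard).symm
  refine ⟨fun i => a (e i), ?_⟩
  intro hdet
  let M : Matrix R R ℚ := Matrix.of fun i k => W (a (e i)) k
  have hM : LinearIndependent ℚ M.row := by
    have h1 := hli.comp e e.injective
    exact h1
  rw [Matrix.linearIndependent_rows_iff_isUnit, Matrix.isUnit_iff_isUnit_det] at hM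
  apply hM.ne_zero
  have h2 : M = (Matrix.of fun i k => V (a (e i)) k).map (Int.castRingHom ℚ) := by
    ext i k
    rfl
  rw [h2, ← RingHom.mapMatrix_apply, ← RingHom.map_det, hdet, map_zero]

end LA_

end Pool.Agent.GWN
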