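import Mathlib
import Pool.Agent.GWN.LA

set_option autoImplicit false

/-!
# Zero-one law: the Schwartz-Zippel lemma
-/

namespace Pool.Agent.GWN

open Finset
open Pool.Agent.CMTP (HalfX)
open Pool.Agent.CMV (exists_half card_of_half)
open scoped BigOperators

namespace SZ_

open LA_

/-- the determinant criterion -/
theorem full_of_det {X T : Type} [Fintype X] [DecidableEq X] (c : X → X) (hcc : ∀ x, c (c x) = x)
    (R : Finset X) (hR : HalfX c R) (a : T → X → X) (hac : ∀ t x, c (a t x) = a t (c x))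
    (l : X → ℤ) (hl : ∀ x, l (c x) = - l x) (τ : {x // x ∈ R} → T)
    (hdet : (Matrix.of fun i k : {x // x ∈ R} => l (a (τ i) k)).det ≠ 0) : Full c a l := by
  intro f hf hrel
  have h1 : Matrix.mulVec (Matrix.of fun i k : {x // x ∈ R} => l (a (τ i) k))
      (fun k : {x // x ∈ R} => f k) = 0 := by
    funext i
    have h2 := hrel (τ i)
    rw [sum_even c hcc R hR (fun x => l (a (τ i) x) * f x) (fun x => by
      rw [← hac, hl, hf]
      ring)] at h2
    have h3 : ∑ x ∈ R, l (a (τ i) x) * f x = 0 := by omega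
    rw [← Finset.sum_coe_sort R (fun x => l (a (τ i) x) * f x)] at h3
    exact h3
  have h4 := Matrix.eq_zero_of_mulVec_eq_zero hdet h1
  have h5 : ∀ x ∈ R, f x = 0 := fun x hx => congrFun h4 ⟨x, hx⟩
  funext x
  by_cases hx : x ∈ R
  · exact h5 x hx
  · have h6 : c x ∈ R := by
      by_contra h7
      exact hx ((hR x).2 h7)
    have h7 := h5 _ h6
    rw [hf] at h7
    simpa using h7

/-- a full odd function has a non-zero determinant -/
theorem det_of_full {X T : Type} [Fintype X] [DecidableEq X] (c : X → X) (hcc : ∀ x, c (c x) = x)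
    (R : Finset X) (hR : HalfX c R) (a : T → X → X) (hac : ∀ t x, c (a t x) = a t (c x))
    (l : X → ℤ) (hl : ∀ x, l (c x) = - l x) (hfull : Full c a l) :
    ∃ τ : {x // x ∈ R} → T,
      (Matrix.of fun i k : {x // x ∈ R} => l (a (τ i) k)).det ≠ 0 := by
  classical
  refine exists_det (fun t (k : {x // x ∈ R}) => l (a t k)) ?_
  intro f hf
  let g : X → ℤ := fun x => if h : x ∈ R then f ⟨x, h⟩ else
    if h' : c x ∈ R then - f ⟨c x, h'⟩ else 0
  have hg1 : ∀ x (h : x ∈ R), g x = f ⟨x, h⟩ := by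
    intro x h
    simp only [g]
    rw [dif_pos h]
  have hg2 : ∀ x (h : c x ∈ R), g x = - f ⟨c x, h⟩ := by
    intro x h
    have h1 : x ∉ R := by
      intro h2
      exact (hR x).1 h2 h
    simp only [g]
    rw [dif_neg h1, dif_pos h]
  have hgodd : ∀ x, g (c x) = - g x := by
    intro x
    by_cases hx : x ∈ R
    · have h1 : c (c x) ∈ R := by rwa [hcc]
      rw [hg2 (c x) h1, hg1 x hx]
      congr 2
      exact Subtype.ext (hcc x)
    · have h6 : c x ∈ R := by
        by_contra h7
        exact hx ((hR x).2 h7)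
      rw [hg1 _ h6, hg2 _ h6, neg_neg]
  have h0 : g = 0 := by
    apply hfull g hgodd
    intro t
    rw [sum_even c hcc R hR (fun x => l (a t x) * g x) (fun x => by
      rw [← hac, hl, hgodd]
      ring)]
    have h1 : ∑ x ∈ R, l (a t x) * g x = ∑ k : {x // x ∈ R}, l (a t k) * f k := by
      rw [← Finset.sum_coe_sort R (fun x => l (a t x) * g x)]
      refine Finset.sum_congr rfl fun k _ => ?_
      rw [hg1 k.1 k.2]
    rw [h1, hf t, mul_zero]
  funext k
  have h1 := hg1 k.1 k.2
  rw [h0] at h1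
  exact h1.symm

/-- the coordinates of odd functions -/
theorem exists_lin {Y : Type} (d : Y → Y) (n : ℕ)
    (e : Fin n → Y) (he : ∀ y, d y ≠ y → (∃ i, e i = y) ∨ ∃ i, e i = d y) :
    ∃ lin : Y → MvPolynomial (Fin n) ℤ, (∀ y, (lin y).totalDegree ≤ 1) ∧
      ∀ l : Y → ℤ, (∀ y, l (d y) = - l y) → ∀ y, MvPolynomial.eval (fun i => l (e i)) (lin y) = l y := by
  have h : ∀ y, ∃ P : MvPolynomial (Fin n) ℤ, P.totalDegree ≤ 1 ∧
      ∀ l : Y → ℤ, (∀ y, l (d y) = - l y) → MvPolynomial.eval (fun i => l (e i)) P = l y := by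
    intro y
    by_cases hy : d y = y
    · refine ⟨0, by simp, ?_⟩
      intro l hl
      have h1 := hl y
      rw [hy] at h1
      rw [map_zero]
      omega
    · rcases he y hy with ⟨i, hi⟩ | ⟨i, hi⟩
      · refine ⟨MvPolynomial.X i, by rw [MvPolynomial.totalDegree_X], ?_⟩
        intro l hl
        rw [MvPolynomial.eval_X, hi]
      · refine ⟨- MvPolynomial.X i, by rw [MvPolynomial.totalDegree_neg, MvPolynomial.totalDegree_X], ?_⟩
        intro l hl
        rw [map_neg, MvPolynomial.eval_X, hi, hl, neg_neg]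
  choose lin h1 h2 using h
  exact ⟨lin, h1, fun l hl y => h2 y l hl⟩

theorem degree_det {R : Type} [Fintype R] [DecidableEq R] {n : ℕ}
    (M : Matrix R R (MvPolynomial (Fin n) ℤ)) (hM : ∀ i k, (M i k).totalDegree ≤ 1) :
    M.det.totalDegree ≤ Fintype.card R := by
  rw [Matrix.det_apply']
  refine MvPolynomial.totalDegree_finsetSum_le ?_
  intro σ _
  refine (MvPolynomial.totalDegree_mul _ _).trans ?_
  have h1 : ((Equiv.Perm.sign σ : ℤ) : MvPolynomial (Fin n) ℤ).totalDegree = 0 := by
    have : ((Equiv.Perm.sign σ : ℤ) : MvPolynomial (Fin n) ℤ) =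
        MvPolynomial.C (Equiv.Perm.sign σ : ℤ) := by simp
    rw [this, MvPolynomial.totalDegree_C]
  rw [h1, zero_add]
  refine (MvPolynomial.totalDegree_finsetProd _ _).trans ?_
  calc ∑ i, (M (σ i) i).totalDegree ≤ ∑ i : R, 1 := Finset.sum_le_sum fun i _ => hM _ _
    _ = Fintype.card R := by simp

/-- enumeration of one of each pair -/
theorem exists_enum {Y : Type} [Fintype Y] (d : Y → Y) (hdd : ∀ y, d (d y) = y) :
    ∃ (n : ℕ) (e : Fin n → Y), n = Nat.card {y : Y // d y ≠ y} / 2 ∧ Function.Injective e ∧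
      (∀ i j, d (e i) ≠ e j) ∧ ∀ y, d y ≠ y → (∃ i, e i = y) ∨ ∃ i, e i = d y := by
  classical
  let Y' : Type := {y : Y // d y ≠ y}
  let d' : Y' → Y' := fun y => ⟨d y.1, by
    rw [hdd]
    exact y.2.symm⟩
  have hdd' : ∀ y, d' (d' y) = y := fun y => Subtype.ext (hdd y.1)
  have hd1 : ∀ y, d' y ≠ y := fun y h => y.2 (congrArg Subtype.val h)
  obtain ⟨R, hR⟩ := exists_half d' hdd' hd1
  have hc := card_of_half d' hdd' R hR
  have hn : Nat.card {y : Y // d y ≠ y} / 2 = R.card := by
    have h1 : Nat.card {y : Y // d y ≠ y} = 2 * R.card := by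
      rw [Nat.card_eq_fintype_card]
      exact hc
    omega
  refine ⟨R.card, fun i => ((R.equivFin.symm i : Y') : Y), hn.symm, ?_, ?_, ?_⟩
  · intro i j h
    have h1 : (R.equivFin.symm i : Y') = (R.equivFin.symm j : Y') := Subtype.ext h
    exact R.equivFin.symm.injective (Subtype.ext h1)
  · intro i j h
    have h1 : d' (R.equivFin.symm i : Y') = (R.equivFin.symm j : Y') := Subtype.ext h
    have h2 := (hR _).1 (R.equivFin.symm i).2
    rw [h1] at h2
    exact h2 (R.equivFin.symm j).2
  · intro y hy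
    by_cases h : (⟨y, hy⟩ : Y') ∈ R
    · left
      refine ⟨R.equivFin ⟨_, h⟩, ?_⟩
      show ((R.equivFin.symm (R.equivFin ⟨_, h⟩) : Y') : Y) = y
      rw [Equiv.symm_apply_apply]
    · right
      have h1 : d' ⟨y, hy⟩ ∈ R := by
        by_contra h2
        exact h ((hR _).2 h2)
      refine ⟨R.equivFin ⟨_, h1⟩, ?_⟩
      show ((R.equivFin.symm (R.equivFin ⟨_, h1⟩) : Y') : Y) = d y
      rw [Equiv.symm_apply_apply]

end SZ_

open LA_ SZ_ in
theorem p_SZ : T_SZ := by
  classical
  intro X Y T _ _ c d pl a hcc hc1 hdd hpl hac l hl hfull N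
  obtain ⟨R, hR⟩ := exists_half c hcc hc1
  have hcR := card_of_half c hcc R hR
  obtain ⟨n, e, hn, heinj, he2, he3⟩ := exists_enum d hdd
  obtain ⟨lin, hdeg, hlin⟩ := exists_lin d n e he3
  obtain ⟨τ, hτ⟩ := det_of_full c hcc R hR a hac (fun x => l (pl x)) (fun x => by
    show l (pl (c x)) = - l (pl x)
    rw [← hpl, hl]) hfull
  let M : Matrix {x // x ∈ R} {x // x ∈ R} (MvPolynomial (Fin n) ℤ) :=
    Matrix.of fun i k => lin (pl (a (τ i) k))
  have heval : ∀ l' : Y → ℤ, (∀ y, l' (d y) = - l' y) →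
      MvPolynomial.eval (fun i => l' (e i)) M.det =
        (Matrix.of fun i k : {x // x ∈ R} => l' (pl (a (τ i) k))).det := by
    intro l' hl'
    rw [RingHom.map_det]
    congr 1
    ext i k
    exact hlin l' hl' _
  have hQ : M.det ≠ 0 := by
    intro h0
    apply hτ
    rw [← heval l hl, h0, map_zero]
  have hQd : M.det.totalDegree ≤ Fintype.card X / 2 := by
    refine (degree_det M fun i k => hdeg _).trans ?_
    rw [Fintype.card_coe]
    omega
  let S : Finset ℤ := (Finset.range (N + 1)).image (fun b : ℕ => 2 * (b : ℤ) - N)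
  have hS : S.card = N + 1 := by
    rw [Finset.card_image_of_injective _ (fun b b' h => by
      have h' : 2 * (b : ℤ) - N = 2 * (b' : ℤ) - N := h
      omega), Finset.card_range]
  have hsz := MvPolynomial.schwartz_zippel_totalDegree hQ S
  set Z := Finset.filter (fun f => MvPolynomial.eval f M.det = 0)
        (Fintype.piFinset fun _ : Fin n => S) with hZ
  have hle : Nat.card {s : Y → ℕ // (∀ y, s y + s (d y) = N) ∧
      ¬ Full c a (fun x => 2 * (s (pl x) : ℤ) - N)} ≤ Z.card := by
    rw [← Fintype.card_coe, ← Nat.card_eq_fintype_card]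
    refine Nat.card_le_card_of_injective
      (fun s => (⟨fun i => 2 * (s.1 (e i) : ℤ) - N, ?_⟩ : {f // f ∈ Z})) ?_
    · rw [hZ, Finset.mem_filter, Fintype.mem_piFinset]
      refine ⟨fun i => ?_, ?_⟩
      · rw [Finset.mem_image]
        refine ⟨s.1 (e i), ?_, rfl⟩
        rw [Finset.mem_range]
        have := s.2.1 (e i)
        omega
      · by_contra h
        have hodd : ∀ y, 2 * (s.1 (d y) : ℤ) - N = - (2 * (s.1 y : ℤ) - N) := by
          intro y
          have := s.2.1 y
          omega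
        apply s.2.2
        refine full_of_det c hcc R hR a hac _ (fun x => ?_) τ ?_
        · rw [← hpl]
          exact hodd _
        · rw [← heval (fun y => 2 * (s.1 y : ℤ) - N) hodd]
          exact h
    · intro s s' h
      apply Subtype.ext
      funext y
      have h1 : ∀ i, s.1 (e i) = s'.1 (e i) := by
        intro i
        have h2 := congrFun (congrArg Subtype.val h) i
        have h3 : 2 * (s.1 (e i) : ℤ) - N = 2 * (s'.1 (e i) : ℤ) - N := h2
        omega
      have e1 := s.2.1 y
      have e2 := s'.2.1 y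
      by_cases hy : d y = y
      · rw [hy] at e1 e2
        omega
      · rcases he3 y hy with ⟨i, hi⟩ | ⟨i, hi⟩
        · rw [← hi]
          exact h1 i
        · have h2 := h1 i
          rw [hi] at h2
          omega
  have hsz2 : Z.card * (N + 1) ≤ M.det.totalDegree * (N + 1) ^ n := by
    rw [hS, div_le_div_iff₀ (by positivity) (by positivity)] at hsz
    exact_mod_cast hsz
  rw [← hn]
  calc _ ≤ Z.card * (N + 1) := Nat.mul_le_mul_right _ hle
    _ ≤ M.det.totalDegree * (N + 1) ^ n := hsz2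
    _ ≤ _ := Nat.mul_le_mul_right _ hQd

end Pool.Agent.GWN
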