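import Mathlib
import Pool.Agent.GWN.SZ

set_option autoImplicit false

/-!
# The number of slope functions
-/

namespace Pool.Agent.GWN

open Finset SZ_

theorem p_CNT : T_CNT := by
  classical
  intro Y _ d hdd N hN
  obtain ⟨n, e, hn, heinj, he2, he3⟩ := exists_enum d hdd
  rw [← hn]
  have hcard : Nat.card (Fin n → Fin (N + 1)) = (N + 1) ^ n := by
    rw [Nat.card_eq_fintype_card, Fintype.card_fun, Fintype.card_fin, Fintype.card_fin]
  rw [← hcard]
  refine Nat.card_eq_of_bijective (fun s => fun i => ⟨s.1 (e i), by
    have := s.2 (e i)
    omega⟩) ⟨?_, ?_⟩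
  · intro s s' h
    apply Subtype.ext
    funext y
    have h1 : ∀ i, s.1 (e i) = s'.1 (e i) := by
      intro i
      have h2 := congrFun h i
      exact congrArg Fin.val h2
    have e1 := s.2 y
    have e2 := s'.2 y
    by_cases hy : d y = y
    · rw [hy] at e1 e2
      omega
    · rcases he3 y hy with ⟨i, hi⟩ | ⟨i, hi⟩
      · rw [← hi]
        exact h1 i
      · have h2 := h1 i
        rw [hi] at h2
        omega
  · intro u
    let s : Y → ℕ := fun y => if h : ∃ i, e i = y then (u h.choose : ℕ) else
      if h' : ∃ i, e i = d y then N - (u h'.choose : ℕ) else N / 2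
    have hs1 : ∀ i, s (e i) = u i := by
      intro i
      have h : ∃ j, e j = e i := ⟨i, rfl⟩
      simp only [s]
      rw [dif_pos h]
      congr 2
      exact heinj h.choose_spec
    have hs2 : ∀ i, s (d (e i)) = N - (u i : ℕ) := by
      intro i
      have h0 : ¬ ∃ j, e j = d (e i) := by
        rintro ⟨j, hj⟩
        exact he2 i j hj.symm
      have h : ∃ j, e j = d (d (e i)) := ⟨i, (hdd _).symm⟩
      simp only [s]
      rw [dif_neg h0, dif_pos h]
      congr 3
      exact heinj (h.choose_spec.trans (hdd _))
    refine ⟨⟨s, ?_⟩, ?_⟩
    · intro y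
      by_cases hy : d y = y
      · have hev : Even N := by
          rcases hN with h | h
          · exact h
          · exact absurd hy (h y)
        have h0 : ¬ ∃ j, e j = y := by
          rintro ⟨j, hj⟩
          apply he2 j j
          rw [hj, hy]
        have h1 : s y = N / 2 := by
          simp only [s]
          rw [dif_neg h0, dif_neg (by rwa [hy])]
        rw [hy, h1]
        obtain ⟨m, hm⟩ := hev
        omega
      · rcases he3 y hy with ⟨i, hi⟩ | ⟨i, hi⟩
        · rw [← hi, hs1, hs2]
          have := (u i).2
          omega
        · have h1 := hs1 i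
          have h2 := hs2 i
          rw [hi] at h1
          rw [hi, hdd] at h2
          rw [h1, h2]
          have := (u i).2
          omega
    · funext i
      exact Fin.ext (hs1 i)

end Pool.Agent.GWN
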