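import Mathlib
import Pool.Agent.GWN.Targets
import Pool.Agent.CMV.OrdUnique
import Pool.Agent.FFT.FB
import Pool.Agent.FFT.FC
import Pool.Agent.FFT.CF
import Pool.Agent.FFT.NORM
import Pool.Agent.FFT.ORD

set_option autoImplicit false

/-!
# CONV: Tate by divisors implies that there are no relations between the slopes
-/

namespace Pool.Agent.GWN

namespace CONV_

open NumberField Module Finset
open Pool.Agent.CMT (QBar cc)
open Pool.Agent.FFT (TateByDivisors IsWeil act conj mult Idx TateWeight)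
open Pool.Agent.LCD (NoCommonPower)
open scoped BigOperators IntermediateField

theorem emb_conj {F : Type} [Field F] [NumberField F] (i0 φ : F →+* QBar) (x : F) :
    ∃ τ : QBar ≃+* QBar, φ x = τ (i0 x) := by
  obtain ⟨h, ⟨τ, rfl⟩, h2⟩ := CMTP.transitive F i0 φ
  refine ⟨τ, ?_⟩
  rw [← h2]
  rfl

theorem restrict_C (ιC : QBar →+* ℂ) (E : Type) [Field E] [NumberField E] (ψ : E →+* ℂ) :
    ∃ φ : E →+* QBar, ιC.comp φ = ψ := by
  classical
  have hinj : Function.Injective (fun φ : E →+* QBar => ιC.comp φ) := by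
    intro φ φ' h
    ext x
    apply ιC.injective
    exact congrArg (fun g : E →+* ℂ => g x) h
  have h1 : Fintype.card (E →+* QBar) = finrank ℚ E := Embeddings.card E QBar
  have h2 : Fintype.card (E →+* ℂ) = finrank ℚ E := Embeddings.card E ℂ
  have h3 := (Fintype.bijective_iff_injective_and_card
    (fun φ : E →+* QBar => ιC.comp φ)).2 ⟨hinj, by rw [h1, h2]⟩
  exact h3.2 ψ

theorem exists_C : Nonempty (QBar →+* ℂ) := by
  have : Algebra.IsAlgebraic ℚ QBar := CMTP.isAlgebraic_QBar ℚ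
  exact ⟨((IsAlgClosed.lift : QBar →ₐ[ℚ] ℂ) : QBar →+* ℂ)⟩

theorem kron_aux (p : ℕ) [Fact p.Prime] (ι : QBar →+* PadicAlgCl p) (ιC : QBar →+* ℂ)
    {F : Type} [Field F] [NumberField F] (i0 : F →+* QBar) (z' : F)
    (h1 : ∀ τ : QBar ≃+* QBar, ‖ι (τ (i0 z'))‖ ≤ 1)
    (h2 : ∃ n : ℕ, IsIntegral ℤ ((p : QBar) ^ n * i0 z'))
    (h3 : ∀ τ : QBar ≃+* QBar, ‖ιC (τ (i0 z'))‖ = 1) : ∃ M : ℕ, 0 < M ∧ i0 z' ^ M = 1 := by
  have hint : IsIntegral ℤ z' := by
    apply CMV.OrdUnique_.integral_of_roots (p := p)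
    intro ψ
    obtain ⟨φ, rfl⟩ := FFT.FB_.exists_restrict p ι F ψ
    obtain ⟨τ, hτ⟩ := emb_conj i0 φ z'
    refine ⟨?_, ?_⟩
    · show ‖ι (φ z')‖ ≤ 1
      rw [hτ]
      exact h1 τ
    · obtain ⟨n, hn⟩ := h2
      refine ⟨n, ?_⟩
      have h4 : IsIntegral ℤ ((p : F) ^ n * z') := by
        rw [← isIntegral_algHom_iff (f := i0.toIntAlgHom) i0.injective]
        show IsIntegral ℤ (i0 ((p : F) ^ n * z'))
        rw [map_mul, map_pow, map_natCast]
        exact hn
      have h5 := h4.map (ι.comp φ).toIntAlgHom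
      have h6 : (ι.comp φ).toIntAlgHom ((p : F) ^ n * z') =
          (p : PadicAlgCl p) ^ n * (ι.comp φ) z' := by
        show (ι.comp φ) ((p : F) ^ n * z') = _
        rw [map_mul, map_pow, map_natCast]
      rw [h6] at h5
      exact h5
  have habs : ∀ ψ : F →+* ℂ, ‖ψ z'‖ = 1 := by
    intro ψ
    obtain ⟨φ, rfl⟩ := restrict_C ιC F ψ
    obtain ⟨τ, hτ⟩ := emb_conj i0 φ z'
    show ‖ιC (φ z')‖ = 1
    rw [hτ]
    exact h3 τ
  obtain ⟨M, hM, hzM⟩ := NumberField.Embeddings.pow_eq_one_of_norm_eq_one F ℂ hint habs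
  refine ⟨M, hM, ?_⟩
  have := congrArg i0 hzM
  rwa [map_pow, map_one] at this

/-- Kronecker's theorem for algebraic numbers with trivial absolute values above `p` -/
theorem kron (p : ℕ) [Fact p.Prime] (ι : QBar →+* PadicAlgCl p) (ιC : QBar →+* ℂ) (z : QBar)
    (h1 : ∀ τ : QBar ≃+* QBar, ‖ι (τ z)‖ ≤ 1) (h2 : ∃ n : ℕ, IsIntegral ℤ ((p : QBar) ^ n * z))
    (h3 : ∀ τ : QBar ≃+* QBar, ‖ιC (τ z)‖ = 1) : ∃ M : ℕ, 0 < M ∧ z ^ M = 1 := by
  have hz : IsIntegral ℚ z := by
    have : Algebra.IsAlgebraic ℚ QBar := CMTP.isAlgebraic_QBar ℚ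
    exact Algebra.IsIntegral.isIntegral z
  let F : IntermediateField ℚ QBar := ℚ⟮z⟯
  have hfin : FiniteDimensional ℚ F := IntermediateField.adjoin.finiteDimensional hz
  have : NumberField F := { to_charZero := inferInstance, to_finiteDimensional := by
                              convert hfin }
  let z' : F := ⟨z, IntermediateField.mem_adjoin_simple_self ℚ z⟩
  let i0 : F →+* QBar := (F.val : F →ₐ[ℚ] QBar)
  exact kron_aux p ι ιC i0 z' h1 h2 h3

section main

variable {J : Type} [Fintype J] {K : J → Type} [∀ j, Field (K j)] [∀ j, NumberField (K j)]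
  [∀ j, IsCMField (K j)]

theorem sum_conj (F : (Σ j, K j →+* QBar) → ℤ) : ∑ x, F (conj x) = ∑ x, F x := by
  classical
  have h : Function.Involutive (conj (K := K)) := FFT.CF_.conj_conj
  exact Fintype.sum_equiv h.toPerm _ _ fun x => rfl

/-- the multiplicities of a divisorial set are invariant under conjugation -/
theorem mult_div (q : ℕ) (π : ∀ j, K j) (hπ : ∀ j, IsWeil q (π j)) (hq : 0 < q)
    (hN : NoCommonPower π) {n : J → ℕ} (Δ : Finset (Idx K n)) (h : FFT.Divisorial q π Δ)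
    (x : Σ j, K j →+* QBar) : mult Δ x = mult Δ (conj x) := by
  classical
  obtain ⟨D, hD1, hD2, hD3⟩ := h
  have hΔ : Δ = D.biUnion id := by
    ext z
    rw [hD2, Finset.mem_biUnion]
    rfl
  have key : ∀ g : (Σ j, K j →+* QBar) → ℤ, (∀ y, g (conj y) = - g y) →
      ∑ y, mult Δ y * g y = 0 := by
    intro g hg
    rw [FFT.NORM_.sum_mult, hΔ, Finset.sum_biUnion hD1]
    refine Finset.sum_eq_zero fun B hB => ?_
    obtain ⟨hc, M, hM, hpr⟩ := hD3 B hB
    obtain ⟨a, b, hab, rfl⟩ := Finset.card_eq_two.1 (by simpa using hc : B.card = 2)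
    show ∑ z ∈ ({a, b} : Finset (Idx K n)), g ⟨z.1, z.2.1⟩ = 0
    rw [Finset.sum_pair hab]
    rw [Finset.prod_pair hab] at hpr
    have e0 : ∀ y : Σ j, K j →+* QBar, y.2 (π y.1) * (conj y).2 (π y.1) = (q : QBar) := by
      intro y
      show y.2 (π y.1) * y.2 (IsCMField.complexConj (K y.1) (π y.1)) = q
      rw [← map_mul, (hπ y.1).2, map_natCast]
    have e1 := e0 ⟨a.1, a.2.1⟩
    have hq0 : (q : QBar) ≠ 0 := by exact_mod_cast hq.ne'
    have hne : a.2.1 (π a.1) ≠ 0 := by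
      intro h0
      apply hq0
      rw [← e1]
      show a.2.1 (π a.1) * _ = 0
      rw [h0, zero_mul]
    have e2 : (b.2.1 (π b.1)) ^ M = ((conj (K := K) ⟨a.1, a.2.1⟩).2 (π a.1)) ^ M := by
      have h1 : (a.2.1 (π a.1)) ^ M * (b.2.1 (π b.1)) ^ M =
          (a.2.1 (π a.1)) ^ M * ((conj (K := K) ⟨a.1, a.2.1⟩).2 (π a.1)) ^ M := by
        rw [← mul_pow, ← mul_pow, hpr]
        have e3 : a.2.1 (π a.1) * (conj (K := K) ⟨a.1, a.2.1⟩).2 (π a.1) = q := e1
        rw [e3, one_mul]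
      exact mul_left_cancel₀ (pow_ne_zero _ hne) h1
    have e3 : (⟨b.1, b.2.1⟩ : Σ j, K j →+* QBar) = conj ⟨a.1, a.2.1⟩ :=
      hN ⟨b.1, b.2.1⟩ (conj ⟨a.1, a.2.1⟩) M hM e2
    rw [e3, hg]
    ring
  have h1 := key (fun y => (if y = x then 1 else 0) - if y = conj x then 1 else 0) ?_
  · have h2 : ∑ y, mult Δ y * ((if y = x then (1 : ℤ) else 0) - if y = conj x then 1 else 0) =
        mult Δ x - mult Δ (conj x) := by
      simp only [mul_sub, Finset.sum_sub_distrib, mul_ite, mul_one, mul_zero,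
        Finset.sum_ite_eq', Finset.mem_univ, if_true]
    rw [h2] at h1
    omega
  · intro y
    have e1 : (conj y = x) ↔ (y = conj x) :=
      ⟨fun h => by rw [← h, FFT.CF_.conj_conj], fun h => by rw [h, FFT.CF_.conj_conj]⟩
    have e2 : (conj y = conj x) ↔ (y = x) :=
      ⟨fun h => by rw [← FFT.CF_.conj_conj y, h, FFT.CF_.conj_conj], fun h => by rw [h]⟩
    simp only [e1, e2]
    ring

/-- complex absolute values of Weil numbers -/
theorem norm_C (q : ℕ) (L : Type) [Field L] [NumberField L] [IsCMField L] (w : L)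
    (hw : IsWeil q w) (Φ : L →+* ℂ) : ‖Φ w‖ ^ 2 = (q : ℝ) := by
  have h1 := congrArg Φ hw.2
  rw [map_mul, IsCMField.complexEmbedding_complexConj, map_natCast] at h1
  have h2 := congrArg norm h1
  rw [norm_mul, RCLike.norm_conj, Complex.norm_natCast] at h2
  rw [pow_two]
  exact h2

end main

end CONV_

open CONV_ NumberField Module Finset in
open Pool.Agent.CMT (QBar cc) in
open Pool.Agent.FFT (TateByDivisors IsWeil act conj mult Idx TateWeight) in
open Pool.Agent.LCD (NoCommonPower) in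
theorem p_CONV : T_CONV := by
  classical
  intro p _ q J _ K _ _ _ π ha hW ι N s hN hs hNC hT f hf hrel
  obtain ⟨ιC⟩ := exists_C
  obtain ⟨a, ha, hq⟩ := ha
  obtain ⟨hr0, hr1⟩ := FFT.ORD_.norm_q p a q ha hq
  have hq0 : 0 < q := by
    rw [hq]
    exact pow_pos (Fact.out : p.Prime).pos _
  have hqQ : (q : QBar) ≠ 0 := by exact_mod_cast hq0.ne'
  set r : ℝ := ‖(q : PadicAlgCl p)‖ with hr
  let S : ℕ := ∑ x : (Σ j, K j →+* QBar), (f x).natAbs
  let m : (Σ j, K j →+* QBar) → ℕ := fun x => (f x + 2 * S).toNat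
  have hfS : ∀ x, (f x).natAbs ≤ S := fun x =>
    Finset.single_le_sum (f := fun x : (Σ j, K j →+* QBar) => (f x).natAbs)
      (fun _ _ => Nat.zero_le _) (mem_univ x)
  have hm : ∀ x, (m x : ℤ) = f x + 2 * S := by
    intro x
    show (((f x + 2 * S).toNat : ℕ) : ℤ) = _
    have := hfS x
    rw [Int.toNat_of_nonneg]
    omega
  have hm4 : ∀ x, m x ≤ 4 * S := by
    intro x
    have h1 := hm x
    have h2 := hfS x
    omega
  let n : J → ℕ := fun _ => 4 * S
  let Δ : Finset (Idx K n) := univ.filter (fun z => (z.2.2 : ℕ) < m ⟨z.1, z.2.1⟩)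
  have hmult : ∀ x, mult Δ x = m x := by
    intro x
    unfold mult
    norm_cast
    have e1 : (univ : Finset (Fin (n x.1))).filter
        (fun s : Fin (n x.1) => (⟨x.1, x.2, s⟩ : Idx K n) ∈ Δ) =
        (univ : Finset (Fin (4 * S))).filter (fun s : Fin (4 * S) => s.val < m x) := by
      ext s
      simp only [Finset.mem_filter, Finset.mem_univ, true_and, Δ]
    rw [e1, Fin.card_filter_val_lt]
    exact min_eq_right (hm4 x)
  have hsumf : ∑ x, f x = 0 := by
    have h1 := sum_conj (K := K) f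
    simp only [hf, Finset.sum_neg_distrib] at h1
    omega
  let c : ℕ := Fintype.card (Σ j, K j →+* QBar)
  have hcard : Δ.card = 2 * (S * c) := by
    have h1 : ((Δ.card : ℕ) : ℤ) = ∑ x, mult Δ x * 1 := by
      rw [FFT.NORM_.sum_mult Δ (fun _ => 1)]
      simp
    have h2 : ∑ x : (Σ j, K j →+* QBar), mult Δ x * 1 = 2 * (S * c) := by
      simp only [hmult, hm, mul_one, Finset.sum_add_distrib, hsumf, zero_add, Finset.sum_const,
        Finset.card_univ, nsmul_eq_mul]
      show (c : ℤ) * (2 * S) = 2 * (S * c)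
      ring
    rw [h2] at h1
    exact_mod_cast h1
  -- the product
  have hbe : (∏ x ∈ Δ, x.2.1 (π x.1)) = ∏ y : (Σ j, K j →+* QBar), (y.2 (π y.1)) ^ (m y) := by
    have h1 := FFT.FC_.prod_mult Δ (fun y : (Σ j, K j →+* QBar) => y.2 (π y.1))
    rw [h1]
    refine Finset.prod_congr rfl fun y _ => ?_
    rw [hmult, zpow_natCast]
  -- sum of the slopes
  have hsc : ∀ x, s x + s (conj x) = N := by
    intro x
    have h1 := FFT.ORD_.norm_mul_cc p q (K x.1) (π x.1) (hW x.1) ι x.2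
    have h2 := hs x
    have h3 : ‖ι (cc x.2 (π x.1))‖ ^ N = r ^ s (conj x) := hs (conj x)
    have h4 : r ^ (s x + s (conj x)) = r ^ N := by
      rw [pow_add, ← h3, ← h2, ← mul_pow, h1]
    exact pow_right_injective₀ hr0 hr1.ne h4
  have hslope : ∀ τ : QBar ≃+* QBar, ∑ y, s (act K τ y) * m y = (S * c) * N := by
    intro τ
    have h1 : ∑ y, ((s (act K τ y) : ℕ) : ℤ) = ∑ y, ((s y : ℕ) : ℤ) :=
      Equiv.sum_comp (act K τ) (fun y => ((s y : ℕ) : ℤ))
    have h2 : 2 * ∑ y, ((s y : ℕ) : ℤ) = N * c := by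
      have h3 := sum_conj (K := K) (fun y => ((s y : ℕ) : ℤ))
      have h4 : ∑ y : (Σ j, K j →+* QBar), (((s y : ℕ) : ℤ) + ((s (conj y) : ℕ) : ℤ)) = N * c := by
        have : ∀ y : (Σ j, K j →+* QBar), ((s y : ℕ) : ℤ) + ((s (conj y) : ℕ) : ℤ) = N := by
          intro y
          exact_mod_cast hsc y
        simp only [this, Finset.sum_const, Finset.card_univ, nsmul_eq_mul]
        show (c : ℤ) * N = N * c
        ring
      rw [Finset.sum_add_distrib, h3] at h4
      linarith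
    have h3 : ∑ y, ((s (act K τ y) : ℕ) : ℤ) * f y = 0 := by
      have h4 := hrel τ
      simp only [sub_mul, Finset.sum_sub_distrib] at h4
      have h5 : ∑ x, (N : ℤ) * f x = 0 := by
        rw [← Finset.mul_sum, hsumf, mul_zero]
      have h6 : ∑ x, 2 * ((s (act K τ x) : ℕ) : ℤ) * f x =
          2 * ∑ y, ((s (act K τ y) : ℕ) : ℤ) * f y := by
        rw [Finset.mul_sum]
        exact Finset.sum_congr rfl fun _ _ => by ring
      rw [h5, h6] at h4
      linarith
    have h4 : ((∑ y, s (act K τ y) * m y : ℕ) : ℤ) = ((S * c * N : ℕ) : ℤ) := by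
      push_cast
      have h5 : ∀ y, ((s (act K τ y) : ℕ) : ℤ) * ((m y : ℕ) : ℤ) =
          ((s (act K τ y) : ℕ) : ℤ) * f y + 2 * S * ((s (act K τ y) : ℕ) : ℤ) := by
        intro y
        rw [hm]
        ring
      simp only [h5, Finset.sum_add_distrib, h3, ← Finset.mul_sum, h1, zero_add]
      have : 2 * (S : ℤ) * ∑ i, ((s i : ℕ) : ℤ) = S * (2 * ∑ i, ((s i : ℕ) : ℤ)) := by ring
      rw [this, h2]
      ring
    exact_mod_cast h4
  let be : QBar := ∏ y : (Σ j, K j →+* QBar), (y.2 (π y.1)) ^ (m y)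
  let z : QBar := be / (q : QBar) ^ (S * c)
  have hτbe : ∀ τ : QBar ≃+* QBar, τ be =
      ∏ y : (Σ j, K j →+* QBar), ((act K τ y).2 (π y.1)) ^ (m y) := by
    intro τ
    show τ (∏ y : (Σ j, K j →+* QBar), (y.2 (π y.1)) ^ (m y)) = _
    rw [map_prod]
    refine Finset.prod_congr rfl fun y _ => ?_
    rw [map_pow]
    rfl
  have hz1 : ∀ τ : QBar ≃+* QBar, ‖ι (τ z)‖ ≤ 1 := by
    intro τ
    have h1 : ‖ι (τ be)‖ ^ N = (r ^ (S * c)) ^ N := by
      rw [hτbe, map_prod, norm_prod, ← Finset.prod_pow]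
      have h2 : ∀ y : (Σ j, K j →+* QBar), ‖ι (((act K τ y).2 (π y.1)) ^ (m y))‖ ^ N =
          r ^ (s (act K τ y) * m y) := by
        intro y
        have h3 : ‖ι ((act K τ y).2 (π y.1))‖ ^ N = r ^ s (act K τ y) := hs (act K τ y)
        rw [map_pow, norm_pow, ← pow_mul, mul_comm (m y) N, pow_mul, h3, ← pow_mul]
      simp only [h2]
      rw [Finset.prod_pow_eq_pow_sum, hslope, pow_mul]
    have h2 : ‖ι (τ be)‖ = r ^ (S * c) :=
      (pow_left_inj₀ (norm_nonneg _) (pow_nonneg hr0.le _) (by omega)).1 h1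
    have h3 : τ z = τ be / (q : QBar) ^ (S * c) := by
      show τ (be / (q : QBar) ^ (S * c)) = _
      rw [map_div₀, map_pow, map_natCast]
    rw [h3, map_div₀, norm_div, h2, map_pow, map_natCast, norm_pow, ← hr,
      div_self (pow_ne_zero _ hr0.ne')]
  have hbeint : IsIntegral ℤ be := by
    refine IsIntegral.prod _ fun y _ => ?_
    exact ((hW y.1).1.map y.2.toIntAlgHom).pow _
  have hz2 : ∃ k : ℕ, IsIntegral ℤ ((p : QBar) ^ k * z) := by
    refine ⟨a * (S * c), ?_⟩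
    have h1 : (p : QBar) ^ (a * (S * c)) * z = be := by
      have h2 : (q : QBar) ^ (S * c) ≠ 0 := pow_ne_zero _ hqQ
      have h3 : (p : QBar) ^ (a * (S * c)) = (q : QBar) ^ (S * c) := by
        rw [hq, pow_mul]
        push_cast
        rfl
      rw [h3]
      exact mul_div_cancel₀ be h2
    rw [h1]
    exact hbeint
  have hz3 : ∀ τ : QBar ≃+* QBar, ‖ιC (τ z)‖ = 1 := by
    intro τ
    have hqr : (0 : ℝ) < q := by exact_mod_cast hq0
    have h1 : ‖ιC (τ be)‖ ^ 2 = ((q : ℝ) ^ (S * c)) ^ 2 := by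
      rw [hτbe, map_prod, norm_prod, ← Finset.prod_pow]
      have h2 : ∀ y : (Σ j, K j →+* QBar), ‖ιC (((act K τ y).2 (π y.1)) ^ (m y))‖ ^ 2 =
          (q : ℝ) ^ m y := by
        intro y
        have h3 : ‖ιC ((act K τ y).2 (π y.1))‖ ^ 2 = (q : ℝ) :=
          norm_C q (K y.1) (π y.1) (hW y.1) (ιC.comp (act K τ y).2)
        rw [map_pow, norm_pow, ← pow_mul, mul_comm (m y) 2, pow_mul, h3]
      simp only [h2]
      rw [Finset.prod_pow_eq_pow_sum, ← pow_mul]
      congr 1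
      have h4 : ((∑ y, m y : ℕ) : ℤ) = ((S * c * 2 : ℕ) : ℤ) := by
        push_cast
        simp only [hm, Finset.sum_add_distrib, hsumf, zero_add, Finset.sum_const,
          Finset.card_univ, nsmul_eq_mul]
        show (c : ℤ) * (2 * S) = S * c * 2
        ring
      exact_mod_cast h4
    have h2 : ‖ιC (τ be)‖ = (q : ℝ) ^ (S * c) :=
      (pow_left_inj₀ (norm_nonneg _) (pow_nonneg hqr.le _) two_ne_zero).1 h1
    have h3 : τ z = τ be / (q : QBar) ^ (S * c) := by
      show τ (be / (q : QBar) ^ (S * c)) = _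
      rw [map_div₀, map_pow, map_natCast]
    rw [h3, map_div₀, norm_div, h2, map_pow, map_natCast, norm_pow, Complex.norm_natCast,
      div_self (pow_ne_zero _ hqr.ne')]
  obtain ⟨M, hM, hzM⟩ := kron p ι ιC z hz1 hz2 hz3
  have hTW : TateWeight q π (S * c) Δ := by
    refine ⟨hcard, M, hM, ?_⟩
    rw [hbe]
    show be ^ M = _
    have h1 : be ^ M / ((q : QBar) ^ (S * c)) ^ M = 1 := by
      rw [← div_pow]
      exact hzM
    rw [div_eq_one_iff_eq (pow_ne_zero _ (pow_ne_zero _ hqQ))] at h1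
    rw [h1, ← pow_mul]
  have hD := hT n (S * c) Δ hTW
  funext x
  have h1 := mult_div q π hW hq0 hNC Δ hD x
  rw [hmult, hmult, hm, hm, hf] at h1
  show f x = 0
  omega

end Pool.Agent.GWN
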