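import Mathlib
import Pool.Agent.GWN.Targets

set_option autoImplicit false

/-!
# An embedding into the `p`-adic numbers is determined by its absolute value
-/

namespace Pool.Agent.GWN

open NumberField Module

theorem p_DEG : T_DEG := by
  intro p _ K _ _ ψ ψ' hs heq
  have hp : (p : ℝ)⁻¹ < 1 := by
    have : (1 : ℝ) < p := by exact_mod_cast (Fact.out : p.Prime).one_lt
    exact inv_lt_one_of_one_lt₀ this
  ext x
  obtain ⟨y, hy⟩ := hs x
  rw [hy]
  have hbound : ∀ n : ℕ, ‖ψ' x - algebraMap ℚ_[p] (PadicAlgCl p) y‖ ≤ ((p : ℝ)⁻¹) ^ n := by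
    intro n
    have hpn : 0 < ((p : ℝ)⁻¹) ^ n :=
      pow_pos (inv_pos.2 (by exact_mod_cast (Fact.out : p.Prime).pos)) n
    obtain ⟨r, hr⟩ := Padic.rat_dense p y hpn
    have e0 : ‖algebraMap ℚ_[p] (PadicAlgCl p) y - (r : PadicAlgCl p)‖ < ((p : ℝ)⁻¹) ^ n := by
      have : algebraMap ℚ_[p] (PadicAlgCl p) y - (r : PadicAlgCl p)
          = algebraMap ℚ_[p] (PadicAlgCl p) (y - r) := by
        rw [map_sub, map_ratCast]
      rw [this, norm_algebraMap']
      exact hr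
    have e2 : ‖ψ' x - (r : PadicAlgCl p)‖ ≤ ((p : ℝ)⁻¹) ^ n := by
      have e3 := heq (x - (r : K))
      rw [map_sub, map_ratCast, hy, map_sub, map_ratCast] at e3
      rw [← e3]
      exact e0.le
    have e3 : ψ' x - algebraMap ℚ_[p] (PadicAlgCl p) y
        = (ψ' x - (r : PadicAlgCl p)) + -(algebraMap ℚ_[p] (PadicAlgCl p) y - (r : PadicAlgCl p)) := by
      ring
    rw [e3]
    refine (IsUltrametricDist.norm_add_le_max _ _).trans (max_le e2 ?_)
    rw [norm_neg]
    exact e0.le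
  have hlim : Filter.Tendsto (fun n : ℕ => ((p : ℝ)⁻¹) ^ n) Filter.atTop (nhds 0) :=
    tendsto_pow_atTop_nhds_zero_of_lt_one (by positivity) hp
  have h0 : ‖ψ' x - algebraMap ℚ_[p] (PadicAlgCl p) y‖ ≤ 0 :=
    ge_of_tendsto' hlim hbound
  have h1 := norm_le_zero_iff.1 h0
  exact (sub_eq_zero.1 h1).symm

end Pool.Agent.GWN
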