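import Mathlib
import Pool.Agent.GWN.Targets
import Pool.Agent.CMV.OrdUnique
import Pool.Agent.CMV.OrdExist

set_option autoImplicit false

/-!
# Existence of Weil numbers with given slopes
-/

namespace Pool.Agent.GWN

open NumberField Module
open Pool.Agent.FFT (IsWeil)
open Pool.Agent.CMV.EX_ Pool.Agent.CMV.OrdUnique_

namespace GEX_

theorem finite_place (p : ℕ) [Fact p.Prime] (K : Type) [Field K] [NumberField K] :
    Finite (Place p K) := by
  have hs : Function.Surjective (placeOf : (K →+* PadicAlgCl p) → Place p K) := by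
    rintro ⟨v, ψ, h⟩
    exact ⟨ψ, Subtype.ext (funext fun x => (h x).symm)⟩
  exact Finite.of_surjective _ hs

theorem placeOf_surj {p : ℕ} [Fact p.Prime] {K : Type} [Field K] [NumberField K]
    (v : Place p K) : ∃ ψ : K →+* PadicAlgCl p, placeOf ψ = v := by
  obtain ⟨v, ψ, h⟩ := v
  exact ⟨ψ, Subtype.ext (funext fun x => (h x).symm)⟩

theorem exists_gen (p : ℕ) [Fact p.Prime] {K : Type} [Field K] [NumberField K]
    (ψ : K →+* PadicAlgCl p) :
    ∃ (h : ℕ) (α : 𝓞 K), 1 ≤ h ∧ (PP p ψ) ^ h = Ideal.span {α} := by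
  classical
  have h1 : ClassGroup.mk0 ⟨PP p ψ, mem_nonZeroDivisors_iff_ne_zero.mpr (PP_ne_bot p ψ)⟩ ^
      Fintype.card (ClassGroup (𝓞 K)) = 1 := pow_card_eq_one
  rw [← map_pow, ClassGroup.mk0_eq_one_iff] at h1
  obtain ⟨α, hα⟩ := h1.principal
  exact ⟨Fintype.card (ClassGroup (𝓞 K)), α, Fintype.card_pos, by simpa using hα⟩

theorem norm_p_pos (p : ℕ) [hp : Fact p.Prime] : 0 < ‖(p : PadicAlgCl p)‖ := by
  rw [norm_pos_iff]
  exact_mod_cast hp.out.ne_zero

theorem exists_alpha (h1 : T_PL) (h2 : T_RAT) (p : ℕ) [Fact p.Prime] {K : Type} [Field K]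
    [NumberField K] (v : Place p K) :
    ∃ (α : 𝓞 K) (k m : ℕ), 1 ≤ k ∧ v.1 α = ‖(p : PadicAlgCl p)‖ ^ k ∧
      (∀ w : Place p K, w ≠ v → w.1 α = 1) ∧ α ∣ (p : 𝓞 K) ^ m := by
  have hpp : p.Prime := Fact.out
  obtain ⟨ψ, rfl⟩ := placeOf_surj v
  obtain ⟨h, α, hh, hα⟩ := exists_gen p ψ
  have hmem : α ∈ PP p ψ := by
    have h3 : PP p ψ ^ h ≤ PP p ψ := Ideal.pow_le_self (by omega)
    rw [hα, Ideal.span_singleton_le_iff_mem] at h3
    exact h3
  have hlt : ‖ψ (α : K)‖ < 1 := hmem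
  have hdvd : α ∣ (p : 𝓞 K) ^ h := by
    rw [← Ideal.mem_span_singleton, ← hα]
    exact Ideal.pow_mem_pow (p_mem p ψ) h
  have hα0 : α ≠ 0 := by
    rintro rfl
    rw [zero_dvd_iff] at hdvd
    have : (p : 𝓞 K) = 0 := by
      rcases pow_eq_zero_iff (by omega : h ≠ 0) |>.1 hdvd with h4
      exact h4
    exact hpp.ne_zero (by exact_mod_cast this)
  have hother : ∀ w : Place p K, w ≠ placeOf ψ → w.1 α = 1 := by
    intro w hw
    obtain ⟨ψ', rfl⟩ := placeOf_surj w
    by_contra hne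
    have hlt' : ‖ψ' (α : K)‖ < 1 := lt_of_le_of_ne (norm_le' p ψ' α) hne
    have h3 : PP p ψ ^ h ≤ PP p ψ' := by
      rw [hα, Ideal.span_singleton_le_iff_mem]
      exact hlt'
    have h4 : PP p ψ ≤ PP p ψ' := Ideal.IsPrime.le_of_pow_le h3
    have h5 := h1 p K ψ ψ' (fun x hx => h4 hx)
    exact hw (Subtype.ext (funext fun x => (h5 x).symm))
  have hψ0 : ψ (α : K) ≠ 0 := by
    rw [Ne, map_eq_zero]
    exact_mod_cast hα0
  obtain ⟨n, k, hn, hk⟩ := h2 p (ψ (α : K)) hψ0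
  have hk0 : 0 < k := by
    by_contra hle
    push Not at hle
    have h6 : ‖ψ (α : K)‖ ^ n < 1 := pow_lt_one₀ (norm_nonneg _) hlt (by omega)
    rw [hk] at h6
    have h7 : (1 : ℝ) ≤ ‖(p : PadicAlgCl p)‖ ^ k := by
      obtain ⟨j, hj⟩ := Int.eq_ofNat_of_zero_le (Int.neg_nonneg.2 hle)
      have hj' : k = -(j : ℤ) := by omega
      rw [hj', zpow_neg, zpow_natCast]
      apply (one_le_inv₀ (pow_pos (norm_p_pos p) _)).2
      exact pow_le_one₀ (norm_nonneg _) (norm_p p).le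
    linarith
  refine ⟨α ^ n, k.toNat, h * n, by omega, ?_, ?_, ?_⟩
  · have e : ‖ψ ((α ^ n : 𝓞 K) : K)‖ = ‖(p : PadicAlgCl p)‖ ^ k.toNat := by
      have e1 : ((α ^ n : 𝓞 K) : K) = (α : K) ^ n := by push_cast; rfl
      rw [e1, map_pow, norm_pow, hk, ← zpow_natCast, Int.toNat_of_nonneg hk0.le]
    exact e
  · intro w hw
    obtain ⟨ψ', rfl⟩ := placeOf_surj w
    have e1 : ((α ^ n : 𝓞 K) : K) = (α : K) ^ n := by push_cast; rfl
    have e2 : ‖ψ' (α : K)‖ = 1 := hother _ hw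
    have e : ‖ψ' ((α ^ n : 𝓞 K) : K)‖ = 1 := by
      rw [e1, map_pow, norm_pow, e2, one_pow]
    exact e
  · rw [pow_mul]
    exact pow_dvd_pow_of_dvd hdvd n

end GEX_

open GEX_

theorem p_EX (h1 : T_PL) (h2 : T_RAT) : T_EX := by
  intro p _ K _ _ _ N hN s hs
  classical
  have hpp : p.Prime := Fact.out
  have := finite_place p K
  have : Fintype (Place p K) := Fintype.ofFinite _
  choose α k m hk hα hα1 hdvd using fun v : Place p K => exists_alpha h1 h2 p v
  set Q : ℕ := ∏ u, k u with hQ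
  have hQ0 : 1 ≤ Q := Nat.one_le_iff_ne_zero.2
    (Finset.prod_ne_zero_iff.2 fun u _ => Nat.one_le_iff_ne_zero.1 (hk u))
  set e : Place p K → ℕ := fun v => s v * ∏ u ∈ Finset.univ.erase v, k u with he
  set β : 𝓞 K := ∏ v, α v ^ e v with hβ
  -- the absolute values of `β`
  have hval : ∀ ψ : K →+* PadicAlgCl p,
      ‖ψ (β : K)‖ = ‖(p : PadicAlgCl p)‖ ^ (s (placeOf ψ) * Q) := by
    intro ψ
    have e1 : (β : K) = ∏ v, (α v : K) ^ e v := by
      rw [hβ]
      push_cast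
      rfl
    rw [e1, map_prod, norm_prod, Finset.prod_eq_single (placeOf ψ)]
    · rw [map_pow, norm_pow]
      have e2 : ‖ψ (α (placeOf ψ) : K)‖ = ‖(p : PadicAlgCl p)‖ ^ k (placeOf ψ) :=
        hα (placeOf ψ)
      rw [e2, ← pow_mul]
      congr 1
      rw [he, hQ, ← Finset.mul_prod_erase Finset.univ k (Finset.mem_univ (placeOf ψ))]
      ring
    · intro v _ hv
      rw [map_pow, norm_pow]
      have e2 : ‖ψ (α v : K)‖ = 1 := hα1 v (placeOf ψ) (Ne.symm hv)
      rw [e2, one_pow]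
    · intro h
      exact absurd (Finset.mem_univ _) h
  -- `β` divides a power of `p`
  obtain ⟨γ, hγ⟩ : β ∣ (p : 𝓞 K) ^ (∑ v, m v * e v) := by
    rw [hβ, ← Finset.prod_pow_eq_pow_sum]
    apply Finset.prod_dvd_prod_of_dvd
    intro v _
    rw [pow_mul (p : 𝓞 K) (m v) (e v)]
    exact pow_dvd_pow_of_dvd (hdvd v) _
  set M : ℕ := ∑ v, m v * e v with hM
  set c := IsCMField.complexConj K with hc
  have hp0 : (p : K) ≠ 0 := by exact_mod_cast hpp.ne_zero
  have hγK : (p : K) ^ M = (β : K) * (γ : K) := by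
    have := congrArg (fun x : 𝓞 K => (x : K)) hγ
    push_cast at this
    exact this
  have hβ0 : (β : K) ≠ 0 := by
    intro h0
    rw [h0, zero_mul] at hγK
    exact pow_ne_zero _ hp0 hγK
  have hcβ0 : c (β : K) ≠ 0 := (map_ne_zero c).2 hβ0
  have hcγ : (p : K) ^ M = c (β : K) * c (γ : K) := by
    have := congrArg c hγK
    rw [map_pow, map_natCast, map_mul] at this
    exact this
  have hcval : ∀ ψ : K →+* PadicAlgCl p,
      ‖ψ (c (β : K))‖ = ‖(p : PadicAlgCl p)‖ ^ (s (conjPlace (placeOf ψ)) * Q) := by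
    intro ψ
    exact hval (ψ.comp (IsCMField.complexConj K : K →+* K))
  set π : K := (p : K) ^ (N * Q) * (β : K) / c (β : K) with hπ
  have hπval : ∀ ψ : K →+* PadicAlgCl p,
      ‖ψ π‖ = ‖(p : PadicAlgCl p)‖ ^ (2 * (s (placeOf ψ) * Q)) := by
    intro ψ
    have h3 := hs (placeOf ψ)
    have hne : ‖(p : PadicAlgCl p)‖ ^ (s (conjPlace (placeOf ψ)) * Q) ≠ 0 :=
      (pow_pos (norm_p_pos p) _).ne'
    rw [hπ, map_div₀, map_mul, map_pow, map_natCast, norm_div, norm_mul, norm_pow, hval, hcval,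
      div_eq_iff hne, ← pow_add, ← pow_add]
    congr 1
    rw [← h3]
    ring
  refine ⟨p ^ (2 * (N * Q)), π, ⟨2 * (N * Q), ?_, rfl⟩, ⟨?_, ?_⟩, ?_⟩
  · have : 1 ≤ N * Q := Nat.mul_pos hN hQ0
    omega
  · apply integral_of_roots (p := p)
    intro ψ
    refine ⟨?_, M, ?_⟩
    · rw [hπval]
      exact pow_le_one₀ (norm_nonneg _) (norm_p p).le
    · have h3 : (p : PadicAlgCl p) ^ M * ψ π = ψ ((p : K) ^ (N * Q) * (β : K) * c (γ : K)) := by
        have : (p : K) ^ M * π = (p : K) ^ (N * Q) * (β : K) * c (γ : K) := by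
          rw [hπ, hcγ]
          field_simp
        rw [← this, map_mul, map_pow, map_natCast]
      rw [h3]
      have h4 : IsIntegral ℤ ((p : K) ^ (N * Q) * (β : K) * c (γ : K)) := by
        have h5 : IsIntegral ℤ (c (γ : K)) :=
          (RingOfIntegers.isIntegral_coe γ).map (c : K →+* K).toIntAlgHom
        have h6 : IsIntegral ℤ (p : K) := by
          have := isIntegral_algebraMap (R := ℤ) (A := K) (x := (p : ℤ))
          simpa using this
        exact ((h6.pow _).mul (RingOfIntegers.isIntegral_coe β)).mul h5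
      exact h4.map ψ.toIntAlgHom
  · have h3 : c π = (p : K) ^ (N * Q) * c (β : K) / (β : K) := by
      rw [hπ, map_div₀, map_mul, map_pow, map_natCast, hc, IsCMField.complexConj_apply_apply]
    rw [h3, hπ]
    push_cast
    field_simp
    ring
  · intro ψ
    rw [hπval]
    push_cast
    rw [norm_pow, ← pow_mul, ← pow_mul]
    congr 1
    ring

end Pool.Agent.GWN
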