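import Mathlib
import Pool.Agent.GWN.Targets
import Pool.Agent.FFT.NORM
import Pool.Agent.FFT.FINF
import Pool.Agent.FFT.MATCH
import Pool.Agent.FFT.CF

set_option autoImplicit false

/-!
# No relations between the slopes: all Tate weights are divisorial
-/

namespace Pool.Agent.GWN

open NumberField Finset Module
open Pool.Agent.CMT (QBar IsCMType cc cc_cc)
open Pool.Agent.CMTP (cc_ne)
open Pool.Agent.FFT (Idx TateWeight Divisorial TateByDivisors act conj mult IsWeil p_FINF p_MATCH)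
open Pool.Agent.FFT.CF_ (conj_conj act_conj)
open Pool.Agent.FFT.NORM_ (norm_q_pos norm_q_lt sum_mult)
open Pool.Agent.LCD (NoCommonPower)
open scoped BigOperators

namespace GOOD_

section
variable {J : Type} [Fintype J] {K : J → Type} [∀ j, Field (K j)] [∀ j, NumberField (K j)]
  [∀ j, IsCMField (K j)]

/-- the slopes of conjugate eigenvalues -/
theorem slope_conj (p : ℕ) [Fact p.Prime] (q : ℕ) (π : ∀ j, K j)
    (ha : ∃ a : ℕ, 1 ≤ a ∧ q = p ^ a) (hW : ∀ j, IsWeil q (π j)) (ι : QBar →+* PadicAlgCl p)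
    (N : ℕ) (s : (Σ j, K j →+* QBar) → ℕ)
    (hs : ∀ x, ‖ι (x.2 (π x.1))‖ ^ N = ‖(q : PadicAlgCl p)‖ ^ s x) (x : Σ j, K j →+* QBar) :
    s x + s (conj x) = N := by
  obtain ⟨a, ha, hq⟩ := ha
  have hr0 : 0 < ‖(q : PadicAlgCl p)‖ := norm_q_pos p a q hq
  have hr1 : ‖(q : PadicAlgCl p)‖ < 1 := norm_q_lt p a q ha hq
  have h1 : ι (x.2 (π x.1)) * ι ((cc x.2) (π x.1)) = (q : PadicAlgCl p) := by
    rw [← map_mul, CMTP.cc_apply, ← map_mul, (hW x.1).2, map_natCast, map_natCast]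
  apply pow_right_injective₀ hr0 hr1.ne
  show ‖(q : PadicAlgCl p)‖ ^ (s x + s (conj x)) = ‖(q : PadicAlgCl p)‖ ^ N
  rw [pow_add, ← hs x, ← hs (conj x), ← mul_pow]
  congr 1
  show ‖ι (x.2 (π x.1))‖ * ‖ι ((cc x.2) (π x.1))‖ = ‖(q : PadicAlgCl p)‖
  rw [← norm_mul, h1]

/-- the relation of a Tate weight -/
theorem relation (p : ℕ) [Fact p.Prime] (q : ℕ) (π : ∀ j, K j)
    (ha : ∃ a : ℕ, 1 ≤ a ∧ q = p ^ a) (ι : QBar →+* PadicAlgCl p)
    (N : ℕ) (s : (Σ j, K j →+* QBar) → ℕ)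
    (hs : ∀ x, ‖ι (x.2 (π x.1))‖ ^ N = ‖(q : PadicAlgCl p)‖ ^ s x) (n : J → ℕ) (i : ℕ)
    (Δ : Finset (Idx K n)) (hΔ : TateWeight q π i Δ) (τ : QBar ≃+* QBar) :
    ∑ x, mult Δ x * (2 * (s (act K τ x) : ℤ) - N) = 0 := by
  classical
  obtain ⟨a, ha, hq⟩ := ha
  have hr0 : 0 < ‖(q : PadicAlgCl p)‖ := norm_q_pos p a q hq
  have hr1 : ‖(q : PadicAlgCl p)‖ < 1 := norm_q_lt p a q ha hq
  set r : ℝ := ‖(q : PadicAlgCl p)‖ with hr
  have hinj : ∀ m m' : ℕ, r ^ m = r ^ m' → m = m' := fun m m' h =>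
    pow_right_injective₀ hr0 hr1.ne h
  obtain ⟨hcard, M, hM, hprod⟩ := hΔ
  rw [sum_mult Δ (fun x => 2 * ((s (act K τ x) : ℕ) : ℤ) - ((N : ℕ) : ℤ))]
  have h1 : (∏ x ∈ Δ, ‖ι (τ (x.2.1 (π x.1)))‖) ^ M = r ^ (i * M) := by
    have h2 := congrArg (fun z : QBar => ‖ι (τ z)‖) hprod
    simp only [map_pow, map_prod, map_natCast, norm_pow] at h2
    rw [norm_prod] at h2
    exact h2
  have h3 : ∀ z ∈ Δ, ‖ι (τ (z.2.1 (π z.1)))‖ ^ N = r ^ s (act K τ ⟨z.1, z.2.1⟩) := by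
    intro z _
    exact hs (act K τ ⟨z.1, z.2.1⟩)
  have h4 : r ^ ((∑ z ∈ Δ, s (act K τ ⟨z.1, z.2.1⟩)) * M) = r ^ (i * N * M) := by
    rw [pow_mul, ← Finset.prod_pow_eq_pow_sum, ← Finset.prod_congr rfl h3,
      Finset.prod_pow, ← pow_mul, mul_comm N M, pow_mul, h1, ← pow_mul]
    congr 1
    ring
  have h5 := hinj _ _ h4
  have h6 : ∑ z ∈ Δ, s (act K τ ⟨z.1, z.2.1⟩) = i * N := Nat.eq_of_mul_eq_mul_right hM h5
  rw [Finset.sum_sub_distrib, ← Finset.mul_sum, Finset.sum_const, hcard, nsmul_eq_mul,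
    ← Nat.cast_sum, h6]
  push_cast
  ring

theorem sum_conj (F : (Σ j, K j →+* QBar) → ℤ) : ∑ x, F (conj x) = ∑ x, F x := by
  classical
  have h : Function.Involutive (conj (K := K)) := conj_conj
  exact Fintype.sum_equiv h.toPerm _ _ fun x => rfl

theorem mult_eq (p : ℕ) [Fact p.Prime] (q : ℕ) (π : ∀ j, K j)
    (ha : ∃ a : ℕ, 1 ≤ a ∧ q = p ^ a) (hW : ∀ j, IsWeil q (π j)) (ι : QBar →+* PadicAlgCl p)
    (N : ℕ) (s : (Σ j, K j →+* QBar) → ℕ)
    (hs : ∀ x, ‖ι (x.2 (π x.1))‖ ^ N = ‖(q : PadicAlgCl p)‖ ^ s x)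
    (hfull : Full conj (fun τ => act K τ) (fun x => 2 * (s x : ℤ) - N)) (n : J → ℕ) (i : ℕ)
    (Δ : Finset (Idx K n)) (hΔ : TateWeight q π i Δ) (x : Σ j, K j →+* QBar) :
    mult Δ x = mult Δ (conj x) := by
  have h := hfull (fun x => mult Δ x - mult Δ (conj x)) ?_ ?_
  · have := congrFun h x
    simp only [Pi.zero_apply] at this
    omega
  · intro x
    simp only [conj_conj]
    ring
  · intro τ
    have e := relation p q π ha ι N s hs n i Δ hΔ τ
    have e1 : ∑ x, (2 * (s (act K τ x) : ℤ) - N) * mult Δ (conj x) =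
        - ∑ x, mult Δ x * (2 * (s (act K τ x) : ℤ) - N) := by
      rw [← sum_conj (fun x => (2 * (s (act K τ x) : ℤ) - N) * mult Δ (conj x)),
        ← Finset.sum_neg_distrib]
      refine Finset.sum_congr rfl fun x _ => ?_
      have h1 := slope_conj p q π ha hW ι N s hs (act K τ x)
      rw [act_conj] at h1
      have h2 : (s (act K τ x) : ℤ) + s (act K τ (conj x)) = N := by exact_mod_cast h1
      rw [conj_conj, ← h2]
      ring
    have e2 : ∑ x, (2 * (s (act K τ x) : ℤ) - N) * (mult Δ x - mult Δ (conj x)) =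
        ∑ x, mult Δ x * (2 * (s (act K τ x) : ℤ) - N) -
          ∑ x, (2 * (s (act K τ x) : ℤ) - N) * mult Δ (conj x) := by
      rw [← Finset.sum_sub_distrib]
      refine Finset.sum_congr rfl fun x _ => ?_
      ring
    rw [e2, e1, e]
    ring

end

end GOOD_

open GOOD_ in
theorem p_GOOD : T_GOOD := by
  classical
  intro p _ q J _ K _ _ _ π ha hW ι N s hN hs hfull
  constructor
  · intro x y m hm hxy
    let Δ : Finset (Idx K (fun _ => 2)) :=
      {⟨x.1, x.2, (0 : Fin 2)⟩, ⟨y.1, cc y.2, (1 : Fin 2)⟩}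
    have hne : (⟨x.1, x.2, (0 : Fin 2)⟩ : Idx K (fun _ => 2)) ≠ ⟨y.1, cc y.2, (1 : Fin 2)⟩ := by
      intro h
      have := congrArg (fun z : Idx K (fun _ => 2) => (z.2.2 : ℕ)) h
      simp at this
    have hΔ : TateWeight q π 1 Δ := by
      refine ⟨?_, m, hm, ?_⟩
      · show Finset.card {_, _} = 2 * 1
        rw [Finset.card_pair hne]
      · show (∏ z ∈ ({⟨x.1, x.2, (0 : Fin 2)⟩, ⟨y.1, cc y.2, (1 : Fin 2)⟩} :
          Finset (Idx K (fun _ => 2))), z.2.1 (π z.1)) ^ m = _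
        rw [Finset.prod_pair hne, mul_pow]
        show x.2 (π x.1) ^ m * (cc y.2 (π y.1)) ^ m = _
        rw [hxy, ← mul_pow]
        have e : y.2 (π y.1) * cc y.2 (π y.1) = (q : QBar) := by
          show y.2 (π y.1) * y.2 (IsCMField.complexConj (K y.1) (π y.1)) = q
          rw [← map_mul, (hW y.1).2, map_natCast]
        rw [e, one_mul]
    have h := mult_eq p q π ha hW ι N s hs hfull (fun _ => 2) 1 Δ hΔ x
    have h1 : 0 < mult Δ x := by
      unfold mult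
      have : 0 < ((univ : Finset (Fin 2)).filter (fun s => (⟨x.1, x.2, s⟩ :
          Idx K (fun _ => 2)) ∈ Δ)).card := by
        rw [Finset.card_pos]
        refine ⟨(0 : Fin 2), ?_⟩
        rw [Finset.mem_filter]
        exact ⟨mem_univ _, Finset.mem_insert_self _ _⟩
      exact_mod_cast this
    rw [h] at h1
    have h2 : 0 < ((univ : Finset (Fin 2)).filter (fun s => (⟨x.1, cc x.2, s⟩ :
        Idx K (fun _ => 2)) ∈ Δ)).card := by
      have h3 : (0 : ℤ) < (((univ : Finset (Fin 2)).filter (fun s => (⟨x.1, cc x.2, s⟩ :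
        Idx K (fun _ => 2)) ∈ Δ)).card : ℤ) := h1
      exact_mod_cast h3
    obtain ⟨s, hs⟩ := Finset.card_pos.1 h2
    rw [Finset.mem_filter] at hs
    have hs2 : (⟨x.1, cc x.2, s⟩ : Idx K (fun _ => 2)) = ⟨x.1, x.2, (0 : Fin 2)⟩ ∨
        (⟨x.1, cc x.2, s⟩ : Idx K (fun _ => 2)) = ⟨y.1, cc y.2, (1 : Fin 2)⟩ := by
      have := hs.2
      rwa [Finset.mem_insert, Finset.mem_singleton] at this
    let pr : Idx K (fun _ => 2) → Σ j, K j →+* QBar := fun z => ⟨z.1, z.2.1⟩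
    rcases hs2 with h4 | h4
    · exfalso
      have h5 := congrArg pr h4
      have h6 : (⟨x.1, cc x.2⟩ : Σ j, K j →+* QBar) = ⟨x.1, x.2⟩ := h5
      rw [Sigma.mk.injEq] at h6
      exact cc_ne x.2 (eq_of_heq h6.2)
    · have h5 := congrArg pr h4
      have h6 : conj x = conj y := h5
      rw [← conj_conj x, h6, conj_conj]
  · intro n i Δ hΔ
    exact p_FINF p_MATCH J K q π hW n Δ (mult_eq p q π ha hW ι N s hs hfull n i Δ hΔ)

end Pool.Agent.GWN
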