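import Mathlib
import Pool.Agent.GWN.CLS
import Pool.Agent.CMV.OrdFinal
import Pool.Agent.CMV.CardHalf
import Pool.Agent.FFT.CF

set_option autoImplicit false

/-!
# Weil numbers with arbitrary slopes in CM fields: assembly
-/

namespace Pool.Agent.GWN

open NumberField Finset Module
open Pool.Agent.CMT (QBar cc cc_cc)
open Pool.Agent.CMTP (cc_ne)
open Pool.Agent.FFT (TateByDivisors IsWeil act conj)
open Pool.Agent.FFT.CF_ (conj_conj act_conj)
open Pool.Agent.FFT.NORM_ (norm_q_pos norm_q_lt)
open Pool.Agent.LCD (NoCommonPower)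
open Pool.Agent.CMTP (HalfX)
open Pool.Agent.CMV (exists_iota comp_surj exists_half card_of_half)
open scoped BigOperators

namespace MAIN_

open CLS_

theorem finite_place (p : ℕ) [Fact p.Prime] (K : Type) [Field K] [NumberField K] [IsCMField K] :
    Finite (Place p K) :=
  Finite.of_surjective (fun ψ : K →+* PadicAlgCl p => placeOf ψ) exists_placeOf

theorem even_card {Y : Type} [Finite Y] (d : Y → Y) (hdd : ∀ y, d (d y) = y) :
    Nat.card {y : Y // d y ≠ y} = 2 * (Nat.card {y : Y // d y ≠ y} / 2) := by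
  classical
  have : Fintype Y := Fintype.ofFinite Y
  let Y' : Type := {y : Y // d y ≠ y}
  let d' : Y' → Y' := fun y => ⟨d y.1, by
    rw [hdd]
    exact y.2.symm⟩
  have hdd' : ∀ y, d' (d' y) = y := fun y => Subtype.ext (hdd y.1)
  have hd1 : ∀ y, d' y ≠ y := fun y h => y.2 (congrArg Subtype.val h)
  obtain ⟨R, hR⟩ := exists_half d' hdd' hd1
  have hc := card_of_half d' hdd' R hR
  have h1 : Nat.card {y : Y // d y ≠ y} = 2 * R.card := by
    rw [Nat.card_eq_fintype_card]
    exact hc
  omega

section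
variable (p : ℕ) [Fact p.Prime] (K : Type) [Field K] [NumberField K] [IsCMField K]

theorem conjPlace_ne_iff (v : Place p K) :
    conjPlace v ≠ v ↔ ∃ x, v.1 (IsCMField.complexConj K x) ≠ v.1 x := by
  constructor
  · intro h
    by_contra h1
    push Not at h1
    exact h (Subtype.ext (funext h1))
  · rintro ⟨x, hx⟩ h
    exact hx (congrFun (congrArg Subtype.val h) x)

theorem splitPairs_eq : splitPairs p K = Nat.card {v : Place p K // conjPlace v ≠ v} / 2 := by
  unfold splitPairs
  congr 1
  exact Nat.card_congr (Equiv.subtypeEquivRight fun v => (conjPlace_ne_iff p K v).symm)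

theorem finite_slopes (N : ℕ) : Finite {s : Place p K → ℕ // ∀ v, s v + s (conjPlace v) = N} := by
  have := finite_place p K
  refine Finite.of_injective (β := Place p K → Fin (N + 1))
    (fun s => fun v => ⟨s.1 v, by
      have := s.2 v
      omega⟩) ?_
  intro s s' h
  apply Subtype.ext
  funext v
  exact congrArg Fin.val (congrFun h v)

end

section
variable {J : Type} [Fintype J] (K : J → Type) [∀ j, Field (K j)] [∀ j, NumberField (K j)]
  [∀ j, IsCMField (K j)] (p : ℕ) [Fact p.Prime]

/-- conjugation on the places of all the fields -/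
noncomputable def dd (y : Σ j, Place p (K j)) : Σ j, Place p (K j) := ⟨y.1, conjPlace y.2⟩

/-- the place of an embedding -/
noncomputable def pp (ι : QBar →+* PadicAlgCl p) (x : Σ j, K j →+* QBar) : Σ j, Place p (K j) :=
  ⟨x.1, placeOf (ι.comp x.2)⟩

theorem card_split : Nat.card {y : Σ j, Place p (K j) // dd K p y ≠ y} / 2 =
    ∑ j, splitPairs p (K j) := by
  classical
  have hfin : ∀ j, Finite (Place p (K j)) := fun j => finite_place p (K j)
  have e : {y : Σ j, Place p (K j) // dd K p y ≠ y} ≃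
      Σ j, {v : Place p (K j) // conjPlace v ≠ v} :=
    { toFun := fun y => ⟨y.1.1, ⟨y.1.2, fun h => y.2 (by
        show (⟨y.1.1, conjPlace y.1.2⟩ : Σ j, Place p (K j)) = y.1
        rw [h])⟩⟩
      invFun := fun z => ⟨⟨z.1, z.2.1⟩, fun h => z.2.2 (by
        have h1 : (⟨z.1, conjPlace z.2.1⟩ : Σ j, Place p (K j)) = ⟨z.1, z.2.1⟩ := h
        rw [Sigma.mk.injEq] at h1
        exact eq_of_heq h1.2)⟩
      left_inv := fun y => rfl
      right_inv := fun z => rfl }
  have h1 : Nat.card {y : Σ j, Place p (K j) // dd K p y ≠ y} =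
      ∑ j, Nat.card {v : Place p (K j) // conjPlace v ≠ v} := by
    rw [Nat.card_congr e, Nat.card_sigma]
  have h2 : ∑ j, Nat.card {v : Place p (K j) // conjPlace v ≠ v} = 2 * ∑ j, splitPairs p (K j) := by
    rw [Finset.mul_sum]
    refine Finset.sum_congr rfl fun j _ => ?_
    rw [splitPairs_eq]
    exact even_card conjPlace conj_conjPlace
  rw [h1, h2]
  omega

end

end MAIN_

open MAIN_ CLS_ in
theorem p_MAIN (hRAT : T_RAT) (hCNT : T_CNT) (hSZ : T_SZ) (hGOOD : T_GOOD) (hCONV : T_CONV)
    (hZERO : T_ZERO) (hCLS : T_CLS) : T_MAIN := by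
  classical
  intro J _ K _ _ _ p _
  have hfp : ∀ j, Finite (Place p (K j)) := fun j => finite_place p (K j)
  constructor
  · intro N hN
    have hF : ∀ j, ∃ F : SlopeClass p N (K j) →
        {s : Place p (K j) → ℕ // ∀ v, s v + s (conjPlace v) = N}, Function.Bijective F := by
      intro j
      obtain ⟨F, hF, -⟩ := hCLS p (K j) N hN
      exact ⟨F, hF⟩
    choose F hF using hF
    have hfin : ∀ j, Finite (SlopeClass p N (K j)) := by
      intro j
      have := finite_slopes p (K j) N
      exact Finite.of_injective (F j) (hF j).1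
    refine ⟨inferInstance, ?_⟩
    intro hcase
    rw [Nat.card_pi, ← Finset.prod_pow_eq_pow_sum]
    refine Finset.prod_congr rfl fun j _ => ?_
    rw [Nat.card_eq_of_bijective (F j) (hF j), splitPairs_eq]
    have : Fintype (Place p (K j)) := Fintype.ofFinite _
    refine hCNT (Place p (K j)) conjPlace conj_conjPlace N ?_
    rcases hcase with h | h
    · exact Or.inl h
    · right
      intro v
      exact (conjPlace_ne_iff p (K j) v).2 (h j v)
  · intro hyp
    obtain ⟨ι⟩ := exists_iota p
    -- a full odd function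
    obtain ⟨l, hl, hfull⟩ : ∃ l : (Σ j, Place p (K j)) → ℤ, (∀ y, l (dd K p y) = - l y) ∧
        Full conj (fun τ => act K τ) (fun x : Σ j, K j →+* QBar => l (pp K p ι x)) := by
      rcases hyp with ⟨q, π, ⟨a, ha, hq⟩, hW, hncp, htate⟩ | ⟨h1, h2⟩
      · have hr0 : 0 < ‖(q : PadicAlgCl p)‖ := norm_q_pos p a q hq
        have hr1 : ‖(q : PadicAlgCl p)‖ < 1 := norm_q_lt p a q ha hq
        have hq0 : q ≠ 0 := by
          rw [hq]
          exact pow_ne_zero _ (Fact.out : p.Prime).ne_zero
        have hπ0 : ∀ j, π j ≠ 0 := by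
          intro j h0
          have h1 := (hW j).2
          rw [h0, zero_mul] at h1
          exact hq0 (by exact_mod_cast h1.symm)
        have hrat : ∀ z : (Σ j, K j →+* PadicAlgCl p), ∃ n k : ℕ, 1 ≤ n ∧
            ‖z.2 (π z.1)‖ ^ n = ‖(p : PadicAlgCl p)‖ ^ k := by
          intro z
          obtain ⟨n, k, hn, hk⟩ := hRAT p (z.2 (π z.1)) ((map_ne_zero z.2).2 (hπ0 z.1))
          have hp0 : 0 < ‖(p : PadicAlgCl p)‖ := norm_q_pos p 1 p (pow_one p).symm
          have hp1 : ‖(p : PadicAlgCl p)‖ < 1 := norm_q_lt p 1 p le_rfl (pow_one p).symm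
          have hle : ‖z.2 (π z.1)‖ ≤ 1 :=
            CMV.EX_.norm_le p _ ((hW z.1).1.map z.2.toIntAlgHom)
          have hk0 : 0 ≤ k := by
            by_contra hneg
            push Not at hneg
            have h1 : ‖(p : PadicAlgCl p)‖ ^ k ≤ 1 := by
              rw [← hk]
              exact pow_le_one₀ (norm_nonneg _) hle
            have h2 : 1 < ‖(p : PadicAlgCl p)‖ ^ k := one_lt_zpow_of_neg₀ hp0 hp1 hneg
            linarith
          refine ⟨n, k.toNat, hn, ?_⟩
          rw [hk, ← zpow_natCast, Int.toNat_of_nonneg hk0]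
        choose n k hn hk using hrat
        have hN' : 1 ≤ a * ∏ z, n z :=
          Nat.one_le_iff_ne_zero.2 (Nat.mul_ne_zero (by omega)
            (Finset.prod_ne_zero_iff.2 fun z _ => by
              have := hn z
              omega))
        have hS : ∀ j, HasSlopes p (a * ∏ z, n z) q (π j) := by
          intro j
          refine ⟨⟨a, ha, hq⟩, hW j, ?_⟩
          intro ψ
          have hz := hk ⟨j, ψ⟩
          refine ⟨k ⟨j, ψ⟩ * ∏ z ∈ univ.erase (⟨j, ψ⟩ : Σ j, K j →+* PadicAlgCl p), n z, ?_⟩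
          rw [← Finset.mul_prod_erase univ n (mem_univ (⟨j, ψ⟩ : Σ j, K j →+* PadicAlgCl p))]
          have e1 : a * (n ⟨j, ψ⟩ * ∏ z ∈ univ.erase (⟨j, ψ⟩ : Σ j, K j →+* PadicAlgCl p), n z) =
              n ⟨j, ψ⟩ * (a * ∏ z ∈ univ.erase (⟨j, ψ⟩ : Σ j, K j →+* PadicAlgCl p), n z) := by
            ring
          rw [e1, pow_mul]
          have e2 : ‖ψ (π j)‖ ^ n ⟨j, ψ⟩ = ‖(p : PadicAlgCl p)‖ ^ k ⟨j, ψ⟩ := hz
          rw [e2, hq]
          push_cast
          rw [norm_pow, ← pow_mul, ← pow_mul]
          congr 1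
          ring
        have hsl : ∀ j, ∃ s : {s : Place p (K j) → ℕ // ∀ v, s v + s (conjPlace v) =
            a * ∏ z, n z}, ∀ ψ : K j →+* PadicAlgCl p,
              ‖ψ (π j)‖ ^ (a * ∏ z, n z) = ‖(q : PadicAlgCl p)‖ ^ s.1 (placeOf ψ) :=
          fun j => exists_slope _ q (π j) (hS j)
        choose s hs using hsl
        refine ⟨fun y => 2 * ((s y.1).1 y.2 : ℤ) - ((a * ∏ z, n z : ℕ) : ℤ), ?_, ?_⟩
        · intro y
          have h1 := (s y.1).2 y.2
          have h2 : ((s y.1).1 y.2 : ℤ) + (s y.1).1 (conjPlace y.2) =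
              ((a * ∏ z, n z : ℕ) : ℤ) := by exact_mod_cast h1
          show 2 * ((s y.1).1 (conjPlace y.2) : ℤ) - ((a * ∏ z, n z : ℕ) : ℤ) =
            - (2 * ((s y.1).1 y.2 : ℤ) - ((a * ∏ z, n z : ℕ) : ℤ))
          rw [← h2]
          ring
        · exact hCONV p q J K π ⟨a, ha, hq⟩ hW ι _
            (fun x => (s x.1).1 (placeOf (ι.comp x.2))) hN' (fun x => hs x.1 (ι.comp x.2))
            hncp htate
      · exact hZERO p J K h1 h2 ι
    intro N hN
    have hF : ∀ j, ∃ F : SlopeClass p N (K j) →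
        {s : Place p (K j) → ℕ // ∀ v, s v + s (conjPlace v) = N}, Function.Bijective F ∧
          ∀ (x : SlopeNumber p N (K j)) (ψ : K j →+* PadicAlgCl p),
            ‖ψ x.1.2‖ ^ N = ‖(x.1.1 : PadicAlgCl p)‖ ^ (F (Quotient.mk _ x)).1 (placeOf ψ) :=
      fun j => hCLS p (K j) N hN
    choose F hF hF2 using hF
    have : Fintype (Σ j, Place p (K j)) := Fintype.ofFinite _
    have hsz := hSZ (Σ j, K j →+* QBar) (Σ j, Place p (K j)) (QBar ≃+* QBar) conj (dd K p)
      (pp K p ι) (fun τ => act K τ) conj_conj (by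
        intro x h
        have h6 : (⟨x.1, cc x.2⟩ : Σ j, K j →+* QBar) = ⟨x.1, x.2⟩ := h
        rw [Sigma.mk.injEq] at h6
        exact cc_ne x.2 (eq_of_heq h6.2)) (by
        intro y
        show (⟨y.1, conjPlace (conjPlace y.2)⟩ : Σ j, Place p (K j)) = y
        rw [conj_conjPlace]) (by
        intro x
        rfl) (by
        intro τ x
        exact act_conj τ x) l hl hfull N
    rw [card_split K p] at hsz
    have hX : Fintype.card (Σ j, K j →+* QBar) = ∑ j, finrank ℚ (K j) := by
      rw [Fintype.card_sigma]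
      exact Finset.sum_congr rfl fun j _ => NumberField.Embeddings.card (K j) QBar
    rw [hX] at hsz
    refine le_trans (Nat.mul_le_mul_right _ ?_) hsz
    have hfinS : Finite {s : (Σ j, Place p (K j)) → ℕ // (∀ y, s y + s (dd K p y) = N) ∧
        ¬ Full conj (fun τ => act K τ) (fun x => 2 * (s (pp K p ι x) : ℤ) - N)} := by
      refine Finite.of_injective (β := (Σ j, Place p (K j)) → Fin (N + 1))
        (fun s => fun y => ⟨s.1 y, by
          have := s.2.1 y
          omega⟩) ?_
      intro s s' h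
      apply Subtype.ext
      funext v
      exact congrArg Fin.val (congrFun h v)
    refine Nat.card_le_card_of_injective (fun t => ⟨fun y => (F y.1 (t.1 y.1)).1 y.2, ?_, ?_⟩) ?_
    · intro y
      exact (F y.1 (t.1 y.1)).2 y.2
    · intro hfull'
      obtain ⟨q, π, h, ht, hbad⟩ := t.2
      apply hbad
      rcases isEmpty_or_nonempty J with hJ | ⟨⟨j₀⟩⟩
      · constructor
        · intro x
          exact (hJ.false x.1).elim
        · intro n i Δ _
          refine ⟨∅, by simp, ?_, by simp⟩
          intro x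
          exact (hJ.false x.1).elim
      · refine hGOOD p q J K π (h j₀).1 (fun j => (h j).2.1) ι N
          (fun x => (F x.1 (t.1 x.1)).1 (placeOf (ι.comp x.2))) hN ?_ hfull'
        intro x
        have h3 := hF2 x.1 ⟨(q, π x.1), h x.1⟩ (ι.comp x.2)
        rw [ht x.1] at h3
        exact h3
    · intro t t' h
      apply Subtype.ext
      funext j
      apply (hF j).1
      apply Subtype.ext
      funext v
      have h3 := congrFun (congrArg Subtype.val h) (⟨j, v⟩ : Σ j, Place p (K j))
      exact h3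

end Pool.Agent.GWN
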