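import Mathlib
import Pool.Agent.GWN.Targets
import Pool.Agent.CMV.OrdSplit

set_option autoImplicit false

/-!
# Embeddings with the same prime ideal have the same absolute value
-/

namespace Pool.Agent.GWN

open NumberField Module Polynomial
open Pool.Agent.CMV.OrdSplit_ in
theorem p_PL : T_PL := by
  intro p _ K _ _ ψ ψ' hlt
  have hle : ∀ (j : K →+* PadicAlgCl p) (z : 𝓞 K), ‖j (z : K)‖ ≤ 1 := fun j z =>
    norm_le_one _ ((RingOfIntegers.isIntegral_coe z).map j.toIntAlgHom)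
  have hp : (p : ℝ)⁻¹ < 1 := by
    have : (1 : ℝ) < p := by exact_mod_cast (Fact.out : p.Prime).one_lt
    exact inv_lt_one_of_one_lt₀ this
  have hnp : ‖(p : PadicAlgCl p)‖ = (p : ℝ)⁻¹ := by
    rw [← map_natCast (algebraMap ℚ_[p] (PadicAlgCl p)), norm_algebraMap']
    exact Padic.norm_p
  -- the prime ideals
  obtain ⟨P, hPd⟩ : ∃ P : (K →+* PadicAlgCl p) → Ideal (𝓞 K),
      ∀ j (z : 𝓞 K), z ∈ P j ↔ ‖j (z : K)‖ < 1 := by
    refine ⟨fun j =>
      { carrier := {z : 𝓞 K | ‖j (z : K)‖ < 1}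
        add_mem' := ?_
        zero_mem' := ?_
        smul_mem' := ?_ }, fun j z => Iff.rfl⟩
    · intro a b ha hb
      show ‖j ((a + b : 𝓞 K) : K)‖ < 1
      push_cast
      rw [map_add]
      exact (IsUltrametricDist.norm_add_le_max _ _).trans_lt (max_lt ha hb)
    · show ‖j ((0 : 𝓞 K) : K)‖ < 1
      simp
    · intro c z hz
      show ‖j ((c * z : 𝓞 K) : K)‖ < 1
      push_cast
      rw [map_mul, norm_mul]
      exact mul_lt_one_of_nonneg_of_lt_one_right (hle j c) (norm_nonneg _) hz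
  have hone : ∀ j (z : 𝓞 K), z ∉ P j → ‖j (z : K)‖ = 1 := fun j z hz =>
    le_antisymm (hle j z) (not_lt.1 fun h => hz ((hPd j z).2 h))
  have hprime : ∀ j, (P j).IsPrime := by
    intro j
    refine ⟨?_, ?_⟩
    · intro h
      have h2 : (1 : 𝓞 K) ∈ P j := by
        rw [h]
        trivial
      have h3 := (hPd j 1).1 h2
      simp at h3
    · intro x y hxy
      by_contra hc
      push Not at hc
      have h2 := (hPd j (x * y)).1 hxy
      have h3 : ‖j ((x * y : 𝓞 K) : K)‖ = 1 := by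
        push_cast
        rw [map_mul, norm_mul, hone j x hc.1, hone j y hc.2, one_mul]
      linarith
  have hbot : ∀ j, P j ≠ ⊥ := by
    intro j h
    have h1 : (p : 𝓞 K) ∈ P j := by
      rw [hPd]
      have : j ((p : 𝓞 K) : K) = (p : PadicAlgCl p) := by simp
      rw [this, hnp]
      exact hp
    rw [h, Ideal.mem_bot] at h1
    exact (Nat.cast_ne_zero.2 (Fact.out : p.Prime).ne_zero) h1
  have hPP : P ψ = P ψ' := by
    have := (hprime ψ).isMaximal (hbot ψ)
    refine this.eq_of_le (hprime ψ').ne_top ?_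
    intro z hz
    rw [hPd] at hz ⊢
    exact hlt z hz
  -- the absolute values
  obtain ⟨v, hv⟩ : ∃ v : (K →+* PadicAlgCl p) → AbsoluteValue K ℝ,
      ∀ j x, v j x = ‖j x‖ :=
    ⟨fun j => (NormedField.toAbsoluteValue (PadicAlgCl p)).comp j.injective, fun j x => rfl⟩
  have hnt : (v ψ).IsNontrivial := by
    refine ⟨(p : K), Nat.cast_ne_zero.2 (Fact.out : p.Prime).ne_zero, ?_⟩
    rw [hv, map_natCast, hnp]
    exact hp.ne
  have heq : (v ψ).IsEquiv (v ψ') := by
    refine AbsoluteValue.isEquiv_of_lt_one_imp hnt ?_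
    intro x hx
    rw [hv] at hx ⊢
    obtain ⟨a, b, hb, rfl⟩ := IsFractionRing.div_surjective (A := 𝓞 K) x
    have hb0 : (b : K) ≠ 0 := by
      have := nonZeroDivisors.ne_zero hb
      exact_mod_cast this
    have := hprime ψ
    obtain ⟨u, s, hsP, hus⟩ := cond (P ψ) (hbot ψ) a b
    have hs0 : (s : K) ≠ 0 := by
      intro h0
      have : s = 0 := by exact_mod_cast h0
      rw [this] at hsP
      exact hsP (Ideal.zero_mem _)
    have e1 : ‖ψ (s : K)‖ = 1 := hone ψ s hsP
    have e2 : ‖ψ' (s : K)‖ = 1 := hone ψ' s (hPP ▸ hsP)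
    rcases hus with hus | hus
    · exfalso
      have h1 : (a : K) * u = b * s := by exact_mod_cast congrArg (fun z : 𝓞 K => (z : K)) hus
      have hu0 : (u : K) ≠ 0 := by
        intro h0
        rw [h0, mul_zero] at h1
        exact (mul_ne_zero hb0 hs0) h1.symm
      have h2 : ψ ((a : K) / b) * ψ u = ψ s := by
        rw [← map_mul]
        congr 1
        rw [div_mul_eq_mul_div, h1, mul_comm (b : K) s, mul_div_assoc, div_self hb0, mul_one]
      have h3 : ‖ψ ((a : K) / b)‖ * ‖ψ u‖ = 1 := by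
        rw [← norm_mul, h2, e1]
      have h4 := hle ψ u
      have h5 : ‖ψ ((a : K) / b)‖ < 1 := hx
      have h6 : ‖ψ ((a : K) / b)‖ * ‖ψ u‖ < 1 :=
        mul_lt_one_of_nonneg_of_lt_one_left (norm_nonneg _) h5 h4
      linarith
    · have h1 : (b : K) * u = a * s := by exact_mod_cast congrArg (fun z : 𝓞 K => (z : K)) hus
      have h2 : ∀ j : K →+* PadicAlgCl p, j ((a : K) / b) * j s = j u := by
        intro j
        rw [← map_mul]
        congr 1
        rw [div_mul_eq_mul_div, ← h1, mul_comm (b : K) u, mul_div_assoc, div_self hb0, mul_one]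
      have h3 : ‖ψ ((a : K) / b)‖ = ‖ψ u‖ := by
        rw [← h2 ψ, norm_mul, e1, mul_one]
      have h4 : ‖ψ' ((a : K) / b)‖ = ‖ψ' u‖ := by
        rw [← h2 ψ', norm_mul, e2, mul_one]
      have h5 : ‖ψ ((a : K) / b)‖ < 1 := hx
      show ‖ψ' ((a : K) / b)‖ < 1
      rw [h4]
      rw [h3] at h5
      exact hlt u h5
  obtain ⟨c, hc, hpow⟩ := AbsoluteValue.isEquiv_iff_exists_rpow_eq.1 heq
  have hpow' : ∀ x, ‖ψ x‖ ^ c = ‖ψ' x‖ := by
    intro x
    have := congrFun hpow x
    rw [hv, hv] at this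
    exact this
  have hc1 : c = 1 := by
    have h1 := hpow' (p : K)
    rw [map_natCast, map_natCast, hnp] at h1
    have hp0 : 0 < (p : ℝ)⁻¹ := inv_pos.2 (by exact_mod_cast (Fact.out : p.Prime).pos)
    have h2 : ((p : ℝ)⁻¹) ^ c = ((p : ℝ)⁻¹) ^ (1 : ℝ) := by rw [h1, Real.rpow_one]
    exact (Real.rpow_right_inj hp0 hp.ne).1 h2
  intro x
  rw [← hpow' x, hc1, Real.rpow_one]

end Pool.Agent.GWN
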