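import Mathlib
import Pool.Agent.GWN.Targets

set_option autoImplicit false

/-!
# The absolute values of algebraic numbers are rational powers of the absolute value of `p`
-/

namespace Pool.Agent.GWN

theorem p_RAT : T_RAT := by
  intro p _ x hx
  have hpp : p.Prime := Fact.out
  have hint : IsIntegral ℚ_[p] x := Algebra.IsIntegral.isIntegral x
  have hdeg : 0 < (minpoly ℚ_[p] x).natDegree := minpoly.natDegree_pos hint
  have hc : (minpoly ℚ_[p] x).coeff 0 ≠ 0 := minpoly.coeff_zero_ne_zero hint hx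
  have h1 : ‖x‖ = ‖(minpoly ℚ_[p] x).coeff 0‖ ^ (1 / (minpoly ℚ_[p] x).natDegree : ℝ) :=
    spectralNorm.spectralNorm_eq_norm_coeff_zero_rpow ℚ_[p] (PadicAlgCl p) x
  have h2 : ‖x‖ ^ (minpoly ℚ_[p] x).natDegree = ‖(minpoly ℚ_[p] x).coeff 0‖ := by
    rw [h1, ← Real.rpow_natCast, ← Real.rpow_mul (norm_nonneg _), one_div, inv_mul_cancel₀,
      Real.rpow_one]
    exact_mod_cast hdeg.ne'
  refine ⟨(minpoly ℚ_[p] x).natDegree, ((minpoly ℚ_[p] x).coeff 0).valuation, hdeg, ?_⟩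
  have h3 : ‖(p : PadicAlgCl p)‖ = (p : ℝ)⁻¹ := by
    have h4 : (p : PadicAlgCl p) = algebraMap ℚ_[p] (PadicAlgCl p) (p : ℚ_[p]) := by simp
    rw [h4, PadicAlgCl.norm_extends, Padic.norm_p]
  rw [h2, h3, Padic.norm_eq_zpow_neg_valuation hc, zpow_neg, inv_zpow]

end Pool.Agent.GWN
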