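import Mathlib

set_option autoImplicit false

/-!
# The Schwartz-Zippel lemma for product measures
-/

namespace Pool.Agent.GWN

open Finset
open scoped BigOperators

namespace WSZ_

open Classical in
/-- the total weight of the zeros -/
noncomputable def Z {α : Type} [Fintype α] (v : α → ℤ) (w : α → ℕ) {n : ℕ}
    (P : MvPolynomial (Fin n) ℤ) : ℕ :=
  ∑ a : Fin n → α, if MvPolynomial.eval (fun i => v (a i)) P = 0 then ∏ i, w (a i) else 0

theorem sum_prod {α : Type} [Fintype α] (w : α → ℕ) (n : ℕ) :
    ∑ a : Fin n → α, ∏ i, w (a i) = (∑ a, w a) ^ n := by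
  classical
  rw [← Fintype.piFinset_univ, Finset.sum_prod_piFinset]
  simp

/-- **The Schwartz-Zippel lemma for product measures.** -/
theorem wsz {α : Type} [Fintype α] (v : α → ℤ) (hv : Function.Injective v) (w : α → ℕ) (ρ : ℕ)
    (hρ : ∀ a, w a ≤ ρ) : ∀ (n : ℕ) (P : MvPolynomial (Fin n) ℤ), P ≠ 0 →
      Z v w P * (∑ a, w a) ≤ P.totalDegree * ρ * (∑ a, w a) ^ n := by
  classical
  intro n
  induction n with
  | zero =>
    intro P hP
    have h : Z v w P = 0 := by
      unfold Z
      refine Finset.sum_eq_zero fun a _ => ?_
      rw [if_neg]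
      rw [P.eq_C_of_isEmpty] at hP ⊢
      rw [MvPolynomial.eval_C]
      intro h0
      apply hP
      rw [h0, map_zero]
    rw [h, zero_mul]
    exact Nat.zero_le _
  | succ n ih =>
    intro P hP
    set Q : Polynomial (MvPolynomial (Fin n) ℤ) := MvPolynomial.finSuccEquiv ℤ n P with hQ
    have hQ0 : Q ≠ 0 := EmbeddingLike.map_ne_zero_iff.2 hP
    set k := Q.natDegree with hk
    set R := Q.leadingCoeff with hR
    have hR0 : R ≠ 0 := Polynomial.leadingCoeff_ne_zero.2 hQ0
    have hdeg : R.totalDegree + k ≤ P.totalDegree :=
      MvPolynomial.totalDegree_coeff_finSuccEquiv_add_le P k hR0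
    set W := ∑ a, w a with hW
    have h1 : Z v w P = ∑ g : Fin n → α, ∑ a : α,
        if MvPolynomial.eval (Fin.cons (v a) (fun i => v (g i)) : Fin (n + 1) → ℤ) P = 0
          then w a * ∏ i, w (g i) else 0 := by
      unfold Z
      rw [← (Fin.consEquiv (fun _ => α)).sum_comp, Fintype.sum_prod_type_right]
      refine Finset.sum_congr rfl fun g _ => Finset.sum_congr rfl fun a _ => ?_
      have e1 : (fun i => v ((Fin.consEquiv (fun _ => α)) (a, g) i)) =
          (Fin.cons (v a) (fun i => v (g i)) : Fin (n + 1) → ℤ) := by
        funext i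
        refine Fin.cases ?_ (fun j => ?_) i
        · rfl
        · rfl
      have e2 : ∏ i, w ((Fin.consEquiv (fun _ => α)) (a, g) i) = w a * ∏ i, w (g i) := by
        rw [Fin.prod_univ_succ]
        rfl
      rw [e1, e2]
    have h2 : ∀ g : Fin n → α, (∑ a : α,
        if MvPolynomial.eval (Fin.cons (v a) (fun i => v (g i)) : Fin (n + 1) → ℤ) P = 0
          then w a * ∏ i, w (g i) else 0) ≤
        (if MvPolynomial.eval (fun i => v (g i)) R = 0 then W * ∏ i, w (g i) else 0) +
          k * ρ * ∏ i, w (g i) := by
      intro g
      by_cases hg : MvPolynomial.eval (fun i => v (g i)) R = 0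
      · rw [if_pos hg]
        refine le_trans ?_ (Nat.le_add_right _ _)
        rw [hW, Finset.sum_mul]
        refine Finset.sum_le_sum fun a _ => ?_
        split_ifs
        · exact le_rfl
        · exact Nat.zero_le _
      · rw [if_neg hg, zero_add]
        set q : Polynomial ℤ := Q.map (MvPolynomial.eval (fun i => v (g i))) with hq
        have hq0 : q ≠ 0 := by
          intro h0
          apply hg
          have : q.coeff k = 0 := by rw [h0, Polynomial.coeff_zero]
          rw [hq, Polynomial.coeff_map] at this
          exact this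
        have hcard : (univ.filter (fun a : α => q.IsRoot (v a))).card ≤ k := by
          calc (univ.filter (fun a : α => q.IsRoot (v a))).card
              ≤ q.roots.toFinset.card := by
                refine Finset.card_le_card_of_injOn v ?_ hv.injOn
                intro a ha
                have ha' : q.IsRoot (v a) := (Finset.mem_filter.1 ha).2
                rw [Finset.mem_coe, Multiset.mem_toFinset, Polynomial.mem_roots hq0]
                exact ha'
            _ ≤ Multiset.card q.roots := q.roots.toFinset_card_le
            _ ≤ q.natDegree := q.card_roots'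
            _ ≤ k := Polynomial.natDegree_map_le
        calc (∑ a : α,
            if MvPolynomial.eval (Fin.cons (v a) (fun i => v (g i)) : Fin (n + 1) → ℤ) P = 0
              then w a * ∏ i, w (g i) else 0)
            = ∑ a ∈ univ.filter (fun a : α => q.IsRoot (v a)), w a * ∏ i, w (g i) := by
              rw [Finset.sum_filter]
              refine Finset.sum_congr rfl fun a _ => ?_
              rw [MvPolynomial.eval_eq_eval_mv_eval']
              rfl
          _ ≤ ∑ a ∈ univ.filter (fun a : α => q.IsRoot (v a)), ρ * ∏ i, w (g i) :=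
              Finset.sum_le_sum fun a _ => Nat.mul_le_mul_right _ (hρ a)
          _ = (univ.filter (fun a : α => q.IsRoot (v a))).card * (ρ * ∏ i, w (g i)) := by
              rw [Finset.sum_const, smul_eq_mul]
          _ ≤ k * (ρ * ∏ i, w (g i)) := Nat.mul_le_mul_right _ hcard
          _ = k * ρ * ∏ i, w (g i) := by ring
    have h3 : Z v w P ≤ W * Z v w R + k * ρ * W ^ n := by
      rw [h1]
      refine (Finset.sum_le_sum fun g _ => h2 g).trans ?_
      rw [Finset.sum_add_distrib, ← Finset.mul_sum, sum_prod]
      refine Nat.add_le_add_right ?_ _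
      unfold Z
      rw [Finset.mul_sum]
      refine Finset.sum_le_sum fun g _ => ?_
      split_ifs
      · exact le_rfl
      · exact Nat.zero_le _
    calc Z v w P * W ≤ (W * Z v w R + k * ρ * W ^ n) * W := Nat.mul_le_mul_right _ h3
      _ = W * (Z v w R * W) + k * ρ * W ^ (n + 1) := by ring
      _ ≤ W * (R.totalDegree * ρ * W ^ n) + k * ρ * W ^ (n + 1) :=
          Nat.add_le_add_right (Nat.mul_le_mul_left _ (ih R hR0)) _
      _ = (R.totalDegree + k) * (ρ * W ^ (n + 1)) := by ring
      _ ≤ P.totalDegree * (ρ * W ^ (n + 1)) := Nat.mul_le_mul_right _ hdeg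
      _ = P.totalDegree * ρ * W ^ (n + 1) := by ring

end WSZ_

end Pool.Agent.GWN
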