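import Mathlib
import Pool.Agent.GWN.SZ
import Pool.Agent.GWN.WSZ

set_option autoImplicit false

/-!
# Half systems whose signature is full
-/

namespace Pool.Agent.GWN

open Finset
open Pool.Agent.CMTP (HalfX)
open Pool.Agent.CMV (exists_half card_of_half)
open scoped BigOperators

namespace SIG_

open LA_ SZ_ WSZ_

open Classical in
/-- families of subsets counted by their cardinalities -/
theorem card_families {Y : Type} [Fintype Y] (n N : ℕ) (F : Fin n → Finset Y)
    (hF : ∀ i, (F i).card = N) (P : MvPolynomial (Fin n) ℤ) :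
    ((Fintype.piFinset fun i => (F i).powerset).filter
      (fun A => MvPolynomial.eval (fun i => 2 * ((A i).card : ℤ) - N) P = 0)).card =
    Z (fun b : Fin (N + 1) => 2 * ((b : ℕ) : ℤ) - N) (fun b => N.choose b) P := by
  classical
  set S := (Fintype.piFinset fun i => (F i).powerset).filter
      (fun A => MvPolynomial.eval (fun i => 2 * ((A i).card : ℤ) - N) P = 0) with hS
  let φ : (Fin n → Finset Y) → (Fin n → Fin (N + 1)) := fun A i =>
    ⟨(A i).card % (N + 1), Nat.mod_lt _ (Nat.succ_pos _)⟩
  have hφ : ∀ A ∈ Fintype.piFinset (fun i => (F i).powerset), ∀ i, ((φ A i : Fin (N + 1)) : ℕ) =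
      (A i).card := by
    intro A hA i
    have h1 : A i ⊆ F i := Finset.mem_powerset.1 (Fintype.mem_piFinset.1 hA i)
    have h2 := Finset.card_le_card h1
    rw [hF] at h2
    exact Nat.mod_eq_of_lt (by omega)
  have h1 : S.card = ∑ a : Fin n → Fin (N + 1), (S.filter (fun A => φ A = a)).card :=
    Finset.card_eq_sum_card_fiberwise (fun A _ => Finset.mem_coe.2 (Finset.mem_univ _))
  rw [h1]
  unfold Z
  refine Finset.sum_congr rfl fun a _ => ?_
  have hpi : (Fintype.piFinset fun i => powersetCard (a i : ℕ) (F i)).card =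
      ∏ i, N.choose (a i) := by
    rw [Fintype.card_piFinset]
    refine Finset.prod_congr rfl fun i _ => ?_
    rw [Finset.card_powersetCard, hF]
  split_ifs with h
  · rw [← hpi]
    congr 1
    ext A
    rw [Finset.mem_filter, hS, Finset.mem_filter]
    constructor
    · rintro ⟨⟨hA, hA0⟩, hφA⟩
      rw [Fintype.mem_piFinset]
      intro i
      rw [Finset.mem_powersetCard]
      refine ⟨Finset.mem_powerset.1 (Fintype.mem_piFinset.1 hA i), ?_⟩
      rw [← hφ A hA i, hφA]
    · intro hA
      rw [Fintype.mem_piFinset] at hA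
      have hA' : A ∈ Fintype.piFinset (fun i => (F i).powerset) := by
        rw [Fintype.mem_piFinset]
        intro i
        exact Finset.mem_powerset.2 (Finset.mem_powersetCard.1 (hA i)).1
      have hc : ∀ i, (A i).card = a i := fun i => (Finset.mem_powersetCard.1 (hA i)).2
      refine ⟨⟨hA', ?_⟩, ?_⟩
      · rw [← h]
        congr 1
        congr 1
        funext i
        rw [hc i]
      · funext i
        apply Fin.ext
        rw [hφ A hA' i, hc i]
  · rw [Finset.card_eq_zero, Finset.filter_eq_empty_iff]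
    intro A hA hφA
    rw [hS, Finset.mem_filter] at hA
    apply h
    rw [← hA.2]
    congr 1
    congr 1
    funext i
    rw [← hφ A hA.1 i, hφA]

open Classical in
/-- **Half systems whose signature is not full.** -/
theorem card_bad {X X' T : Type} [Fintype X] [Fintype X'] (c : X → X) (c' : X' → X') (r : X' → X)
    (a : T → X → X) (hcc : ∀ x, c (c x) = x) (hc1 : ∀ x, c x ≠ x)
    (hcc' : ∀ y, c' (c' y) = y) (hr : ∀ y, r (c' y) = c (r y)) (hac : ∀ t x, c (a t x) = a t (c x)) (N : ℕ)
    (hN : ∀ x, (univ.filter (fun y => r y = x)).card = N)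
    (l : X → ℤ) (hl : ∀ x, l (c x) = - l x) (hfull : Full c a l) :
    Nat.card {Φ : Finset X' // HalfX c' Φ ∧
      ¬ Full c a (fun x => 2 * ((Φ.filter (fun y => r y = x)).card : ℤ) - N)} * 2 ^ N ≤
    (Fintype.card X / 2) * N.choose (N / 2) * 2 ^ (N * (Fintype.card X / 2)) := by
  classical
  obtain ⟨R, hR⟩ := exists_half c hcc hc1
  have hcR := card_of_half c hcc R hR
  obtain ⟨n, e, hn, heinj, he2, he3⟩ := exists_enum c hcc
  have hn' : n = Fintype.card X / 2 := by
    rw [hn]
    congr 1
    rw [Nat.card_eq_fintype_card]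
    exact Fintype.card_of_subtype univ (fun x => by simpa using hc1 x)
  obtain ⟨lin, hdeg, hlin⟩ := exists_lin c n e he3
  obtain ⟨τ, hτ⟩ := det_of_full c hcc R hR a hac l hl hfull
  let M : Matrix {x // x ∈ R} {x // x ∈ R} (MvPolynomial (Fin n) ℤ) :=
    Matrix.of fun i k => lin (a (τ i) k)
  have heval : ∀ l' : X → ℤ, (∀ y, l' (c y) = - l' y) →
      MvPolynomial.eval (fun i => l' (e i)) M.det =
        (Matrix.of fun i k : {x // x ∈ R} => l' (a (τ i) k)).det := by
    intro l' hl'
    rw [RingHom.map_det]
    congr 1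
    ext i k
    exact hlin l' hl' _
  have hQ : M.det ≠ 0 := by
    intro h0
    apply hτ
    rw [← heval l hl, h0, map_zero]
  have hQd : M.det.totalDegree ≤ Fintype.card X / 2 := by
    refine (degree_det M fun i k => hdeg _).trans ?_
    rw [Fintype.card_coe]
    omega
  let F : Fin n → Finset X' := fun i => univ.filter (fun y => r y = e i)
  have hF : ∀ i, (F i).card = N := fun i => hN (e i)
  -- the number of elements over conjugate points
  have hconj : ∀ Φ : Finset X', HalfX c' Φ → ∀ x,
      (Φ.filter (fun y => r y = x)).card + (Φ.filter (fun y => r y = c x)).card = N := by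
    intro Φ hΦ x
    have h1 : (Φ.filter (fun y => r y = c x)).card =
        ((univ.filter (fun y => r y = x)).filter (fun y => y ∉ Φ)).card := by
      refine Finset.card_bij (fun y _ => c' y) ?_ ?_ ?_
      · intro y hy
        rw [Finset.mem_filter] at hy
        rw [Finset.mem_filter, Finset.mem_filter]
        refine ⟨⟨mem_univ _, ?_⟩, (hΦ y).1 hy.1⟩
        rw [hr, hy.2, hcc]
      · intro y _ z _ h
        rw [← hcc' y, h, hcc']
      · intro y hy
        rw [Finset.mem_filter, Finset.mem_filter] at hy
        refine ⟨c' y, ?_, hcc' y⟩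
        rw [Finset.mem_filter, hr, hy.1.2]
        refine ⟨?_, rfl⟩
        rw [hΦ, hcc']
        exact hy.2
    have h2 : (Φ.filter (fun y => r y = x)).card =
        ((univ.filter (fun y => r y = x)).filter (fun y => y ∈ Φ)).card := by
      congr 1
      ext y
      simp only [Finset.mem_filter, Finset.mem_univ, true_and]
      tauto
    rw [h1, h2, Finset.card_filter_add_card_filter_not, hN]
  set S := (Fintype.piFinset fun i => (F i).powerset).filter
      (fun A => MvPolynomial.eval (fun i => 2 * ((A i).card : ℤ) - N) M.det = 0) with hS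
  have hle : Nat.card {Φ : Finset X' // HalfX c' Φ ∧
      ¬ Full c a (fun x => 2 * ((Φ.filter (fun y => r y = x)).card : ℤ) - N)} ≤ S.card := by
    rw [← Fintype.card_coe, ← Nat.card_eq_fintype_card]
    refine Nat.card_le_card_of_injective
      (fun Φ => (⟨fun i => Φ.1.filter (fun y => r y = e i), ?_⟩ : {A // A ∈ S})) ?_
    · rw [hS, Finset.mem_filter, Fintype.mem_piFinset]
      refine ⟨fun i => ?_, ?_⟩
      · rw [Finset.mem_powerset]
        intro y hy
        rw [Finset.mem_filter] at hy
        exact Finset.mem_filter.2 ⟨mem_univ _, hy.2⟩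
      · by_contra h
        have hodd : ∀ x, 2 * ((Φ.1.filter (fun y => r y = c x)).card : ℤ) - N =
            - (2 * ((Φ.1.filter (fun y => r y = x)).card : ℤ) - N) := by
          intro x
          have h1 := hconj Φ.1 Φ.2.1 x
          have h2 : ((Φ.1.filter (fun y => r y = x)).card : ℤ) +
              (Φ.1.filter (fun y => r y = c x)).card = N := by exact_mod_cast h1
          linarith
        apply Φ.2.2
        refine full_of_det c hcc R hR a hac _ hodd τ ?_
        rw [← heval (fun x => 2 * ((Φ.1.filter (fun y => r y = x)).card : ℤ) - N) hodd]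
        exact h
    · intro Φ Φ' h
      apply Subtype.ext
      have h1 : ∀ i, Φ.1.filter (fun y => r y = e i) = Φ'.1.filter (fun y => r y = e i) := by
        intro i
        exact congrFun (congrArg Subtype.val h) i
      have h2 : ∀ i y, r y = e i → (y ∈ Φ.1 ↔ y ∈ Φ'.1) := by
        intro i y hy
        have h3 := Finset.ext_iff.1 (h1 i) y
        rw [Finset.mem_filter, Finset.mem_filter] at h3
        constructor
        · intro h4
          exact (h3.1 ⟨h4, hy⟩).1
        · intro h4
          exact (h3.2 ⟨h4, hy⟩).1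
      ext y
      rcases he3 (r y) (hc1 _) with ⟨i, hi⟩ | ⟨i, hi⟩
      · exact h2 i y hi.symm
      · have h3 := h2 i (c' y) (by rw [hr, hi])
        rw [Φ.2.1 y, Φ'.2.1 y, h3]
  have hZ : S.card = Z (fun b : Fin (N + 1) => 2 * ((b : ℕ) : ℤ) - N) (fun b => N.choose b)
      M.det := card_families n N F hF M.det
  have hW : ∑ b : Fin (N + 1), N.choose b = 2 ^ N := by
    rw [Fin.sum_univ_eq_sum_range (fun b => N.choose b), Nat.sum_range_choose]
  have hwsz := wsz (fun b : Fin (N + 1) => 2 * ((b : ℕ) : ℤ) - N) (fun b b' h => by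
    apply Fin.ext
    have h' : 2 * ((b : ℕ) : ℤ) - N = 2 * ((b' : ℕ) : ℤ) - N := h
    omega) (fun b => N.choose b) (N.choose (N / 2)) (fun b => Nat.choose_le_middle _ _) n
    M.det hQ
  rw [hW] at hwsz
  calc _ ≤ S.card * 2 ^ N := Nat.mul_le_mul_right _ hle
    _ = Z (fun b : Fin (N + 1) => 2 * ((b : ℕ) : ℤ) - N) (fun b => N.choose b) M.det * 2 ^ N := by
        rw [hZ]
    _ ≤ M.det.totalDegree * N.choose (N / 2) * (2 ^ N) ^ n := hwsz
    _ ≤ (Fintype.card X / 2) * N.choose (N / 2) * (2 ^ N) ^ n :=
        Nat.mul_le_mul_right _ (Nat.mul_le_mul_right _ hQd)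
    _ = (Fintype.card X / 2) * N.choose (N / 2) * 2 ^ (N * (Fintype.card X / 2)) := by
        rw [← pow_mul, hn']

end SIG_

end Pool.Agent.GWN
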