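import Mathlib
import Pool.Agent.CMV.OrdUnique
import Pool.Agent.GWN.Targets

set_option autoImplicit false

/-!
# Weil numbers with the same slopes have a common power
-/

namespace Pool.Agent.GWN

open NumberField Module
open Pool.Agent.FFT (IsWeil)

open Pool.Agent.CMV.OrdUnique_ in
/-- Weil numbers with the same slopes have a common power -/
theorem unique_slopes (p : ℕ) [Fact p.Prime] (K : Type) [Field K] [NumberField K] [IsCMField K]
    (a a' q q' : ℕ) (ha : 1 ≤ a) (ha' : 1 ≤ a') (hq : q = p ^ a) (hq' : q' = p ^ a') (π π' : K)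
    (hπ : IsWeil q π) (hπ' : IsWeil q' π')
    (h : ∀ ψ : K →+* PadicAlgCl p, ‖ψ π‖ ^ a' = ‖ψ π'‖ ^ a) :
    ∃ m m' : ℕ, 0 < m ∧ 0 < m' ∧ π ^ m = π' ^ m' := by
  have hp : p.Prime := Fact.out
  have hp0 : (p : K) ≠ 0 := by exact_mod_cast hp.ne_zero
  set c := IsCMField.complexConj K with hc
  set x := π ^ a' with hx
  set y := π' ^ a with hy
  have hxc : x * c x = (p : K) ^ (a * a') := by
    rw [hx, map_pow, ← mul_pow, hπ.2, hq]
    push_cast
    rw [← pow_mul]
  have hyc : y * c y = (p : K) ^ (a * a') := by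
    rw [hy, map_pow, ← mul_pow, hπ'.2, hq']
    push_cast
    rw [← pow_mul, mul_comm a' a]
  have hQ0 : (p : K) ^ (a * a') ≠ 0 := pow_ne_zero _ hp0
  have hy0 : y ≠ 0 := by
    intro h0
    rw [h0, zero_mul] at hyc
    exact hQ0 hyc.symm
  -- norms at `p`
  have hnorm : ∀ ψ : K →+* PadicAlgCl p, ‖ψ (x / y)‖ = 1 := by
    intro ψ
    have e1 : ‖ψ x‖ = ‖ψ y‖ := by
      rw [hx, hy, map_pow, map_pow, norm_pow, norm_pow, h ψ]
    have e2 : ‖ψ y‖ ≠ 0 := by
      rw [norm_ne_zero_iff]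
      exact (map_ne_zero ψ).2 hy0
    rw [map_div₀, norm_div, e1, div_self e2]
  have hπint : IsIntegral ℤ x := hπ.1.pow a'
  have hcy : IsIntegral ℤ (c y) := by
    have : IsIntegral ℤ y := hπ'.1.pow a
    exact this.map (c : K →+* K).toIntAlgHom
  have hz : (p : K) ^ (a * a') * (x / y) = x * c y := by
    rw [← hyc]
    field_simp
  have hzint : IsIntegral ℤ (x / y) := by
    apply integral_of_roots (p := p)
    intro ψ
    refine ⟨(hnorm ψ).le, a * a', ?_⟩
    have : (p : PadicAlgCl p) ^ (a * a') * ψ (x / y) = ψ (x * c y) := by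
      rw [← hz, map_mul, map_pow, map_natCast]
    rw [this]
    exact (hπint.mul hcy).map ψ.toIntAlgHom
  have habs : ∀ φ : K →+* ℂ, ‖φ (x / y)‖ = 1 := by
    intro φ
    have key : ∀ w : K, w * c w = (p : K) ^ (a * a') → ‖φ w‖ ^ 2 = (p : ℝ) ^ (a * a') := by
      intro w hw
      have h1 := congrArg φ hw
      rw [map_mul, hc, IsCMField.complexEmbedding_complexConj, map_pow, map_natCast] at h1
      have h2 := congrArg norm h1
      rw [norm_mul, RCLike.norm_conj, norm_pow, Complex.norm_natCast] at h2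
      rw [pow_two]
      exact h2
    have e1 := key x hxc
    have e2 := key y hyc
    have e3 : ‖φ x‖ = ‖φ y‖ := by
      have : ‖φ x‖ ^ 2 = ‖φ y‖ ^ 2 := e1.trans e2.symm
      exact (sq_eq_sq₀ (norm_nonneg _) (norm_nonneg _)).1 this
    have e4 : ‖φ y‖ ≠ 0 := by
      rw [norm_ne_zero_iff]
      exact (map_ne_zero φ).2 hy0
    rw [map_div₀, norm_div, e3, div_self e4]
  obtain ⟨N, hN, hzN⟩ := NumberField.Embeddings.pow_eq_one_of_norm_eq_one K ℂ hzint habs
  refine ⟨a' * N, a * N, Nat.mul_pos ha' hN, Nat.mul_pos ha hN, ?_⟩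
  rw [div_pow, div_eq_one_iff_eq (pow_ne_zero _ hy0)] at hzN
  rw [pow_mul, pow_mul]
  exact hzN



theorem p_UN : T_UN := by
  intro p _ K _ _ _ a a' q q' ha ha' hq hq' π π' hπ hπ' h
  exact unique_slopes p K a a' q q' ha ha' hq hq' π π' hπ hπ' h

end Pool.Agent.GWN
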