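import Mathlib
import Pool.Agent.GWN.DEG
import Pool.Agent.GWN.CLS
import Pool.Agent.CMV.OrdFinal
import Pool.Agent.FFT.CF

set_option autoImplicit false

/-!
# A full odd function for independent fields which embed into the `p`-adic numbers
-/

namespace Pool.Agent.GWN

open NumberField Finset Module
open Pool.Agent.CMT (QBar cc cc_cc)
open Pool.Agent.CMTP (cc_ne toPerm)
open Pool.Agent.FFT (IsWeil act conj)
open Pool.Agent.FFT.CF_ (conj_conj act_conj)
open Pool.Agent.CMV (comp_surj comp_inj)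
open scoped BigOperators

namespace ZERO_

open CLS_

section
variable {p : ℕ} [Fact p.Prime] {K : Type} [Field K] [NumberField K] [IsCMField K]

open Classical in
/-- the indicator of a place minus the indicator of the conjugate place -/
noncomputable def ind (w v : Place p K) : ℤ :=
  (if v = w then 1 else 0) - (if v = conjPlace w then 1 else 0)

theorem ind_conj (w v : Place p K) : ind w (conjPlace v) = - ind w v := by
  classical
  unfold ind
  have h1 : (conjPlace v = w) = (v = conjPlace w) := by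
    apply propext
    constructor
    · intro h
      rw [← h, conj_conjPlace]
    · intro h
      rw [h, conj_conjPlace]
  have h2 : (conjPlace v = conjPlace w) = (v = w) := by
    apply propext
    constructor
    · intro h
      rw [← conj_conjPlace v, h, conj_conjPlace]
    · intro h
      rw [h]
  simp only [h1, h2]
  ring

omit [IsCMField K] in
/-- a split embedding is determined by its place -/
theorem placeOf_inj (ψ ψ' : K →+* PadicAlgCl p)
    (hs : ∀ x : K, ∃ y : ℚ_[p], ψ' x = algebraMap ℚ_[p] (PadicAlgCl p) y)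
    (h : placeOf ψ = placeOf ψ') : ψ = ψ' := by
  symm
  refine p_DEG p K ψ' ψ hs fun x => ?_
  exact (congrFun (congrArg Subtype.val h) x).symm

open Classical in
/-- the function on the embeddings -/
theorem ind_emb (ι : QBar →+* PadicAlgCl p) (φ₀ : K →+* QBar)
    (hs : ∀ x : K, ∃ y : ℚ_[p], ι.comp φ₀ x = algebraMap ℚ_[p] (PadicAlgCl p) y)
    (φ : K →+* QBar) : ind (placeOf (ι.comp φ₀)) (placeOf (ι.comp φ)) =
      (if φ = φ₀ then 1 else 0) - (if φ = cc φ₀ then 1 else 0) := by
  classical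
  unfold ind
  have h1 : (placeOf (ι.comp φ) = placeOf (ι.comp φ₀)) = (φ = φ₀) := by
    apply propext
    constructor
    · intro h
      exact comp_inj ι (placeOf_inj _ _ hs h)
    · intro h
      rw [h]
  have h2 : (placeOf (ι.comp φ) = conjPlace (placeOf (ι.comp φ₀))) = (φ = cc φ₀) := by
    apply propext
    constructor
    · intro h
      have h3 : placeOf (ι.comp φ) = placeOf (ι.comp (cc φ₀)) := h
      refine comp_inj ι (placeOf_inj _ _ (fun x => ?_) h3)
      obtain ⟨y, hy⟩ := hs (IsCMField.complexConj K x)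
      exact ⟨y, hy⟩
    · intro h
      rw [h]
      rfl
  simp only [h1, h2]

end

end ZERO_

open ZERO_ CLS_ in
theorem p_ZERO : T_ZERO := by
  classical
  intro p _ J _ K _ _ _ hemb hind ι
  -- the split embeddings
  have h1 : ∀ j, ∃ φ : K j →+* QBar,
      ι.comp φ = (algebraMap ℚ_[p] (PadicAlgCl p)).comp (hemb j).some := fun j =>
    comp_surj ι _
  choose φ₀ hφ₀ using h1
  have hs : ∀ (j : J) (x : K j), ∃ y : ℚ_[p],
      ι.comp (φ₀ j) x = algebraMap ℚ_[p] (PadicAlgCl p) y := by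
    intro j x
    rw [hφ₀ j]
    exact ⟨_, rfl⟩
  refine ⟨fun y => ind (placeOf (ι.comp (φ₀ y.1))) y.2, fun y => ind_conj _ _, ?_⟩
  intro f hf hsum
  -- the relation at each automorphism
  have h2 : ∀ τ : QBar ≃+* QBar,
      ∑ j, f ⟨j, (τ : QBar →+* QBar).comp (φ₀ j)⟩ = 0 := by
    intro τ
    have e1 := hsum τ.symm
    have e2 : ∀ x : Σ j, K j →+* QBar,
        ind (placeOf (ι.comp (φ₀ ((act K τ.symm) x).1)))
          (placeOf (ι.comp ((act K τ.symm) x).2)) =
        (if ((act K τ.symm) x).2 = φ₀ ((act K τ.symm) x).1 then 1 else 0) -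
          (if ((act K τ.symm) x).2 = cc (φ₀ ((act K τ.symm) x).1) then 1 else 0) := fun x =>
      ind_emb ι _ (hs _) _
    simp only [e2] at e1
    have e3 : ∑ y : Σ j, K j →+* QBar,
        (((if y.2 = φ₀ y.1 then 1 else 0) - (if y.2 = cc (φ₀ y.1) then 1 else 0) : ℤ)) *
          f ((act K τ.symm).symm y) = 0 := by
      refine Eq.trans (Equiv.sum_comp (act K τ.symm) _).symm (Eq.trans ?_ e1)
      refine Finset.sum_congr rfl fun x _ => ?_
      rw [Equiv.symm_apply_apply]
    rw [Fintype.sum_sigma] at e3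
    have e4 : ∀ j : J, ∀ φ : K j →+* QBar, (act K τ.symm).symm ⟨j, φ⟩ =
        ⟨j, (τ : QBar →+* QBar).comp φ⟩ := by
      intro j φ
      rw [Equiv.symm_apply_eq]
      have : φ = toPerm (K j) τ.symm ((τ : QBar →+* QBar).comp φ) := by
        ext x
        show φ x = τ.symm (τ (φ x))
        rw [RingEquiv.symm_apply_apply]
      show (⟨j, φ⟩ : Σ j, K j →+* QBar) = ⟨j, toPerm (K j) τ.symm ((τ : QBar →+* QBar).comp φ)⟩
      rw [← this]
    have e5 : ∀ j : J, ∑ φ : K j →+* QBar,
        (((if φ = φ₀ j then 1 else 0) - (if φ = cc (φ₀ j) then 1 else 0) : ℤ)) *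
          f ((act K τ.symm).symm ⟨j, φ⟩) = 2 * f ⟨j, (τ : QBar →+* QBar).comp (φ₀ j)⟩ := by
      intro j
      simp only [e4, sub_mul, ite_mul, one_mul, zero_mul, Finset.sum_sub_distrib,
        Finset.sum_ite_eq', Finset.mem_univ, if_true]
      have e6 : f ⟨j, (τ : QBar →+* QBar).comp (cc (φ₀ j))⟩ =
          - f ⟨j, (τ : QBar →+* QBar).comp (φ₀ j)⟩ :=
        hf ⟨j, (τ : QBar →+* QBar).comp (φ₀ j)⟩
      rw [e6]
      ring
    have e7 : ∑ j, 2 * f ⟨j, (τ : QBar →+* QBar).comp (φ₀ j)⟩ = 0 := by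
      refine Eq.trans ?_ e3
      exact Finset.sum_congr rfl fun j _ => (e5 j).symm
    rw [← Finset.mul_sum] at e7
    omega
  -- separation of the fields
  have h3 : ∀ (j : J) (τ : QBar ≃+* QBar), f ⟨j, (τ : QBar →+* QBar).comp (φ₀ j)⟩ = 0 := by
    intro j τ
    obtain ⟨σ, hσ1, hσ2⟩ := hind j
    have a1 := h2 τ
    have a2 := h2 (σ.trans τ)
    have a3 : ∀ k : J, f ⟨k, ((σ.trans τ : QBar ≃+* QBar) : QBar →+* QBar).comp (φ₀ k)⟩ +
        f ⟨k, (τ : QBar →+* QBar).comp (φ₀ k)⟩ =
        if k = j then 2 * f ⟨k, (τ : QBar →+* QBar).comp (φ₀ k)⟩ else 0 := by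
      intro k
      have b1 : ((σ.trans τ : QBar ≃+* QBar) : QBar →+* QBar).comp (φ₀ k) =
          (τ : QBar →+* QBar).comp ((σ : QBar →+* QBar).comp (φ₀ k)) := rfl
      rw [b1]
      by_cases hk : k = j
      · subst hk
        rw [hσ1, if_pos rfl]
        ring
      · rw [hσ2 k hk, if_neg hk]
        have e6 : f ⟨k, (τ : QBar →+* QBar).comp (cc (φ₀ k))⟩ =
            - f ⟨k, (τ : QBar →+* QBar).comp (φ₀ k)⟩ :=
          hf ⟨k, (τ : QBar →+* QBar).comp (φ₀ k)⟩
        rw [e6]
        ring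
    have a4 : ∑ k, (f ⟨k, ((σ.trans τ : QBar ≃+* QBar) : QBar →+* QBar).comp (φ₀ k)⟩ +
        f ⟨k, (τ : QBar →+* QBar).comp (φ₀ k)⟩) = 0 := by
      rw [Finset.sum_add_distrib, a1, a2, add_zero]
    simp only [a3, Finset.sum_ite_eq', Finset.mem_univ, if_true] at a4
    omega
  funext x
  obtain ⟨j, φ⟩ := x
  obtain ⟨_, ⟨τ, rfl⟩, hτ⟩ := CMTP.transitive (K j) (φ₀ j) φ
  have h4 : (τ : QBar →+* QBar).comp (φ₀ j) = φ := by
    rw [← hτ]
    rfl
  have h5 := h3 j τ
  rw [h4] at h5
  exact h5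

end Pool.Agent.GWN
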